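import Pool.Agent.K4H75.SG.Basic

set_option autoImplicit false

/-! Soluble transitive groups: blocks with an affine structure. -/

namespace Pool.Agent.K4H75.SG

open Equiv

universe u v

theorem pinv1 {X : Type v} (f : Perm X) (x : X) : f⁻¹ (f x) = x := Equiv.symm_apply_apply f x

theorem pinv2 {X : Type v} (f : Perm X) (x : X) : f (f⁻¹ x) = x := Equiv.apply_symm_apply f x

theorem exists_vec0 (V : Type v) [AddCommGroup V] [Finite V] (p : ℕ) [Fact p.Prime]
    [Module (ZMod p) V] : ∃ k : ℕ, Nonempty (V ≃+ (Fin k → ZMod p)) := by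
  have hf : Module.Finite (ZMod p) V := Module.Finite.of_finite
  exact ⟨Module.finrank (ZMod p) V, ⟨(@Module.finBasis (ZMod p) V _ _ _ _ _ hf).equivFun.toAddEquiv⟩⟩

theorem exists_vec (V : Type v) [AddCommGroup V] [Finite V] (p : ℕ) (hp : p.Prime)
    (h : ∀ x : V, p • x = 0) : ∃ k : ℕ, Nonempty (V ≃+ (Fin k → ZMod p)) := by
  have : Fact p.Prime := ⟨hp⟩
  let _ : Module (ZMod p) V := AddCommGroup.zmodModule h
  exact exists_vec0 V p

/-- coordinates on an elementary abelian group modulo a subgroup -/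
theorem exists_coord (N : Type v) [Group N] [Finite N] (hc : ∀ a b : N, a * b = b * a) (p : ℕ)
    (hp : p.Prime) (he : ∀ a : N, a ^ p = 1) (K : Subgroup N) :
    ∃ (k : ℕ) (ψ : N → (Fin k → ZMod p)), (∀ a b, ψ (a * b) = ψ a + ψ b) ∧
      Function.Surjective ψ ∧ ∀ a, ψ a = 0 ↔ a ∈ K := by
  let _ : CommGroup N := { (inferInstance : Group N) with mul_comm := hc }
  have hq : ∀ x : Additive (N ⧸ K), p • x = 0 := by
    intro x
    have : ∀ y : N ⧸ K, y ^ p = 1 := by
      intro y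
      induction y using QuotientGroup.induction_on with
      | H z => rw [← QuotientGroup.mk_pow, he z]; rfl
    exact this (Additive.toMul x)
  have : Finite (Additive (N ⧸ K)) := inferInstanceAs (Finite (N ⧸ K))
  obtain ⟨k, ⟨φ⟩⟩ := exists_vec (Additive (N ⧸ K)) p hp hq
  refine ⟨k, fun a => φ (Additive.ofMul (QuotientGroup.mk a)), ?_, ?_, ?_⟩
  · intro a b
    rw [← map_add]
    rfl
  · intro v
    obtain ⟨x, hx⟩ := φ.surjective v
    obtain ⟨z, hz⟩ := QuotientGroup.mk_surjective (Additive.toMul x)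
    refine ⟨z, ?_⟩
    show φ (Additive.ofMul (QuotientGroup.mk z)) = v
    rw [hz, ← hx]
    rfl
  · intro a
    rw [AddEquiv.map_eq_zero_iff]
    rw [← QuotientGroup.eq_one_iff]
    rfl

theorem exists_matrix {N : Type v} [Group N] {k p : ℕ} [NeZero p] (ψ : N → (Fin k → ZMod p))
    (hadd : ∀ a b, ψ (a * b) = ψ a + ψ b) (hsurj : Function.Surjective ψ) (τ : N → N)
    (hτ : ∀ a b, τ (a * b) = τ a * τ b) (h0 : ∀ a, ψ a = 0 → ψ (τ a) = 0) :
    ∃ A : Matrix (Fin k) (Fin k) (ZMod p), ∀ a, ψ (τ a) = A.mulVec (ψ a) := by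
  have h1 : ψ 1 = 0 := by
    have := hadd 1 1
    rw [mul_one] at this
    exact (left_eq_add.mp this)
  have hinv : ∀ a, ψ a⁻¹ = - ψ a := by
    intro a
    have := hadd a⁻¹ a
    rw [inv_mul_cancel, h1] at this
    exact eq_neg_of_add_eq_zero_left this.symm
  have hwd : ∀ a b, ψ a = ψ b → ψ (τ a) = ψ (τ b) := by
    intro a b hab
    have h2 : ψ (a * b⁻¹) = 0 := by rw [hadd, hinv, hab, add_neg_cancel]
    have h3 := h0 _ h2
    have h4 : ψ (τ a) = ψ (τ (a * b⁻¹)) + ψ (τ b) := by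
      rw [← hadd, ← hτ, inv_mul_cancel_right]
    rw [h4, h3, zero_add]
  choose s hs using hsurj
  let α : (Fin k → ZMod p) →+ (Fin k → ZMod p) :=
    { toFun := fun v => ψ (τ (s v))
      map_zero' := h0 _ (hs 0)
      map_add' := by
        intro v w
        rw [← hadd, ← hτ]
        apply hwd
        rw [hadd, hs, hs, hs] }
  refine ⟨LinearMap.toMatrix' (AddMonoidHom.toZModLinearMap p α), ?_⟩
  intro a
  rw [← Matrix.toLin'_apply, Matrix.toLin'_toMatrix']
  show ψ (τ a) = ψ (τ (s (ψ a)))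
  exact hwd _ _ (hs _).symm

/-- a transitive soluble family is an extension of a smaller one by affine maps -/
theorem exists_affine {ι : Type u} {X : Type v} [Finite X] [Nontrivial X] (f : ι → Perm X)
    (hs : Sol f) (ht : Trans f) :
    ∃ (p k : ℕ) (Y : Type v) (_ : Finite Y) (g : ι → Perm Y) (e : X ≃ Y × (Fin k → ZMod p))
      (A : ι → Y → Matrix (Fin k) (Fin k) (ZMod p)) (b : ι → Y → (Fin k → ZMod p)),
      p.Prime ∧ 0 < k ∧ Sol g ∧ Trans g ∧
      ∀ i x, e (f i x) = (g i (e x).1, (A i (e x).1).mulVec (e x).2 + b i (e x).1) := by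
  classical
  obtain ⟨x0, x1, hx01⟩ := exists_pair_ne X
  have hne : (FreeGroup.lift f).range ≠ ⊥ := by
    intro h
    obtain ⟨w, hw⟩ := ht x0 x1
    have h1 : FreeGroup.lift f w ∈ (FreeGroup.lift f).range := ⟨w, rfl⟩
    rw [h, Subgroup.mem_bot] at h1
    rw [h1] at hw
    exact hx01 hw
  obtain ⟨p, N, hp, hNH, hNne, hnorm, hcomm, hexp⟩ := exists_elementary_perm f hs hne
  have : Fact p.Prime := ⟨hp⟩
  set H := (FreeGroup.lift f).range with hH
  have hnorm' : ∀ h ∈ H, ∀ n ∈ N, h⁻¹ * n * h ∈ N := by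
    intro h hh n hn
    have := hnorm h⁻¹ (H.inv_mem hh) n hn
    rwa [inv_inv] at this
  have hfH : ∀ i, f i ∈ H := fun i => ⟨FreeGroup.of i, by simp⟩
  -- the setoid
  let r : Setoid X :=
    { r := fun x y => ∃ n ∈ N, n x = y
      iseqv := ⟨fun x => ⟨1, N.one_mem, rfl⟩,
        fun {x y} ⟨n, hn, h⟩ => ⟨n⁻¹, N.inv_mem hn, by rw [← h]; simp⟩,
        fun {x y z} ⟨n, hn, h⟩ ⟨m, hm, h'⟩ => ⟨m * n, N.mul_mem hm hn, by
          rw [Perm.mul_apply, h, h']⟩⟩ }
  have hr : ∀ h ∈ H, ∀ x y : X, r x y → r (h x) (h y) := by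
    rintro h hh x y ⟨n, hn, hxy⟩
    refine ⟨h * n * h⁻¹, hnorm h hh n hn, ?_⟩
    rw [← hxy]
    simp [Perm.mul_apply]
  let Y := Quotient r
  let π : X → Y := Quotient.mk r
  have hπ : ∀ x y, π x = π y ↔ r x y := fun x y => Quotient.eq
  let g : ι → Perm Y := fun i =>
    { toFun := Quotient.map (f i) (fun x y h => hr (f i) (hfH i) x y h)
      invFun := Quotient.map (fun x => ((f i)⁻¹ : Perm X) x)
        (fun x y h => hr (f i)⁻¹ (H.inv_mem (hfH i)) x y h)
      left_inv := by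
        intro q
        induction q using Quotient.inductionOn with
        | h x => exact congrArg π (pinv1 (f i) x)
      right_inv := by
        intro q
        induction q using Quotient.inductionOn with
        | h x => exact congrArg π (pinv2 (f i) x) }
  have hg : ∀ i x, π (f i x) = g i (π x) := fun i x => rfl
  have hπs : Function.Surjective π := Quotient.mk_surjective
  -- coordinates
  let K : Subgroup N :=
    { carrier := {n | (n : Perm X) x0 = x0}
      mul_mem' := by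
        intro a b ha hb
        show (a : Perm X) ((b : Perm X) x0) = x0
        rw [show (b : Perm X) x0 = x0 from hb]
        exact ha
      one_mem' := rfl
      inv_mem' := by
        intro a ha
        show (a : Perm X)⁻¹ x0 = x0
        rw [Perm.inv_eq_iff_eq]
        exact ha.symm }
  obtain ⟨k, ψ, hadd, hsurj, hker⟩ := exists_coord N
    (fun a b => Subtype.ext (hcomm a a.2 b b.2)) p hp
    (fun a => Subtype.ext (by rw [Subgroup.coe_pow]; exact hexp a a.2)) K
  have hker' : ∀ a : N, ψ a = 0 ↔ (a : Perm X) x0 = x0 := fun a => hker a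
  have h1 : ψ 1 = 0 := (hker' 1).mpr rfl
  have hinv : ∀ a, ψ a⁻¹ = - ψ a := by
    intro a
    have := hadd a⁻¹ a
    rw [inv_mul_cancel, h1] at this
    exact eq_neg_of_add_eq_zero_left this.symm
  have heq : ∀ a b : N, (a : Perm X) x0 = (b : Perm X) x0 ↔ ψ a = ψ b := by
    intro a b
    have h2 : ψ (b⁻¹ * a) = 0 ↔ ψ a = ψ b := by
      rw [hadd, hinv, neg_add_eq_zero]
      exact eq_comm
    rw [← h2, hker']
    show _ ↔ (b : Perm X)⁻¹ ((a : Perm X) x0) = x0
    rw [Perm.inv_eq_iff_eq]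
  let c0 : X → (Fin k → ZMod p) := fun z =>
    if h : ∃ n : N, (n : Perm X) x0 = z then ψ h.choose else 0
  have hc0 : ∀ n : N, c0 ((n : Perm X) x0) = ψ n := by
    intro n
    have h : ∃ m : N, (m : Perm X) x0 = (n : Perm X) x0 := ⟨n, rfl⟩
    show (if h : ∃ m : N, (m : Perm X) x0 = (n : Perm X) x0 then ψ h.choose else 0) = ψ n
    rw [dif_pos h]
    exact (heq _ _).mp h.choose_spec
  -- transporters
  have hty : ∀ y : Y, ∃ h ∈ H, π (h x0) = y := by
    intro y
    obtain ⟨x, rfl⟩ := hπs y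
    obtain ⟨w, hw⟩ := ht x0 x
    exact ⟨_, ⟨w, rfl⟩, by rw [hw]⟩
  choose t htH ht0 using hty
  have hblock : ∀ (y : Y) (x : X), π x = y → ∃ n : N, (t y)⁻¹ x = (n : Perm X) x0 := by
    intro y x hx
    have h2 : r (t y x0) x := (hπ _ _).mp (by rw [ht0, hx])
    obtain ⟨n, hn, hnx⟩ := h2
    refine ⟨⟨(t y)⁻¹ * n * t y, hnorm' _ (htH y) n hn⟩, ?_⟩
    rw [← hnx]
    rfl
  let e0 : X → Y × (Fin k → ZMod p) := fun x => (π x, c0 ((t (π x))⁻¹ x))
  have hbij : Function.Bijective e0 := by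
    constructor
    · intro x x' hxx
      have h2 : π x = π x' := congrArg Prod.fst hxx
      have h3 : c0 ((t (π x))⁻¹ x) = c0 ((t (π x'))⁻¹ x') := congrArg Prod.snd hxx
      rw [← h2] at h3
      obtain ⟨n, hn⟩ := hblock (π x) x rfl
      obtain ⟨m, hm⟩ := hblock (π x) x' h2.symm
      rw [hn, hm, hc0, hc0, ← heq, ← hn, ← hm] at h3
      exact (t (π x))⁻¹.injective h3
    · rintro ⟨y, v⟩
      obtain ⟨n, hn⟩ := hsurj v
      refine ⟨t y ((n : Perm X) x0), ?_⟩
      have h2 : π (t y ((n : Perm X) x0)) = y := by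
        have h3 : r (t y x0) (t y ((n : Perm X) x0)) := hr _ (htH y) _ _ ⟨n, n.2, rfl⟩
        rw [← (hπ _ _).mpr h3, ht0]
      show (π (t y ((n : Perm X) x0)), c0 ((t (π (t y ((n : Perm X) x0))))⁻¹
        (t y ((n : Perm X) x0)))) = (y, v)
      rw [h2, pinv1, hc0, hn]
  -- affine maps
  have haff : ∀ (i : ι) (y : Y), ∃ (A : Matrix (Fin k) (Fin k) (ZMod p)) (b : Fin k → ZMod p),
      ∀ x, π x = y → c0 ((t (g i y))⁻¹ (f i x)) = A.mulVec (c0 ((t y)⁻¹ x)) + b := by
    intro i y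
    set G := (t (g i y))⁻¹ * f i * t y with hG
    have hGH : G ∈ H := H.mul_mem (H.mul_mem (H.inv_mem (htH _)) (hfH i)) (htH y)
    have hm : ∃ m : N, G x0 = (m : Perm X) x0 := by
      have h2 : π (f i (t y x0)) = g i y := by rw [hg, ht0]
      obtain ⟨n, hn⟩ := hblock (g i y) (f i (t y x0)) h2
      exact ⟨n, hn⟩
    obtain ⟨m, hm⟩ := hm
    let τ : N → N := fun n => ⟨G * n * G⁻¹, hnorm G hGH n n.2⟩
    have hτ : ∀ a b, τ (a * b) = τ a * τ b := by
      intro a b
      apply Subtype.ext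
      show G * (↑(a * b)) * G⁻¹ = (G * a * G⁻¹) * (G * b * G⁻¹)
      rw [Subgroup.coe_mul]
      group
    have hτ0 : ∀ a, ψ a = 0 → ψ (τ a) = 0 := by
      intro a ha
      rw [hker'] at ha ⊢
      have h2 : (τ a : Perm X) * m = m * (τ a : Perm X) := hcomm _ (τ a).2 _ m.2
      have h3 : (τ a : Perm X) (G x0) = G x0 := by
        show G ((a : Perm X) (G⁻¹ (G x0))) = G x0
        rw [pinv1, ha]
      rw [hm] at h3
      have h4 := congrArg (fun q : Perm X => q x0) h2
      simp only [Perm.mul_apply] at h4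
      rw [h3] at h4
      exact ((m : Perm X).injective h4).symm
    obtain ⟨A, hA⟩ := exists_matrix ψ hadd hsurj τ hτ hτ0
    refine ⟨A, ψ m, ?_⟩
    intro x hx
    obtain ⟨n, hn⟩ := hblock y x hx
    have h2 : (t (g i y))⁻¹ (f i x) = ((τ n * m : N) : Perm X) x0 := by
      have h3 : x = t y ((n : Perm X) x0) := by rw [← hn, pinv2]
      show _ = G ((n : Perm X) (G⁻¹ ((m : Perm X) x0)))
      rw [← hm, pinv1, h3]
      rfl
    rw [h2, hc0, hn, hc0, hadd, hA]
  choose A b hAb using haff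
  refine ⟨p, k, Y, inferInstance, g, Equiv.ofBijective e0 hbij, A, b, hp, ?_,
    sol_of_surj π hπs hg hs, trans_of_surj π hπs hg ht, ?_⟩
  · rcases Nat.eq_zero_or_pos k with hk | hk
    · exfalso
      apply hNne
      rw [Subgroup.eq_bot_iff_forall]
      intro n hn
      ext x
      obtain ⟨w, hw⟩ := ht x0 x
      have hwH : FreeGroup.lift f w ∈ H := ⟨w, rfl⟩
      have h2 : ψ ⟨_, hnorm' _ hwH n hn⟩ = 0 := by
        subst hk
        exact Subsingleton.elim _ _
      rw [hker'] at h2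
      have h3 : (FreeGroup.lift f w)⁻¹ (n (FreeGroup.lift f w x0)) = x0 := h2
      rw [Perm.inv_eq_iff_eq, hw] at h3
      rw [h3]
      rfl
    · exact hk
  · intro i x
    show (π (f i x), c0 ((t (π (f i x)))⁻¹ (f i x))) = _
    refine Prod.ext rfl ?_
    show c0 ((t (π (f i x)))⁻¹ (f i x)) = (A i (π x)).mulVec (c0 ((t (π x))⁻¹ x)) + b i (π x)
    rw [hg, hAb i (π x) x rfl]

end Pool.Agent.K4H75.SG
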