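import Mathlib

set_option autoImplicit false

/-! Families of permutations generating soluble groups. -/

namespace Pool.Agent.K4H75.SG

open Equiv

universe u v w

/-- the permutations `f i` generate a soluble group -/
def Sol {ι : Type u} {X : Type v} (f : ι → Perm X) : Prop :=
  Group.IsSolvable (FreeGroup.lift f).range

/-- the group generated by the permutations `f i` is transitive -/
def Trans {ι : Type u} {X : Type v} (f : ι → Perm X) : Prop :=
  ∀ x y : X, ∃ w : FreeGroup ι, FreeGroup.lift f w x = y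

variable {ι : Type u} {X : Type v} {Y : Type w}

theorem sol_of_ker {f : ι → Perm X} {g : ι → Perm Y}
    (h : (FreeGroup.lift f).ker ≤ (FreeGroup.lift g).ker) (hf : Sol f) : Sol g := by
  have e1 := QuotientGroup.quotientKerEquivRange (FreeGroup.lift f)
  have e2 := QuotientGroup.quotientKerEquivRange (FreeGroup.lift g)
  unfold Sol at hf ⊢
  have h1 : Group.IsSolvable (FreeGroup ι ⧸ (FreeGroup.lift f).ker) :=
    Group.isSolvable_of_surjective (f := e1.symm.toMonoidHom) e1.symm.surjective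
  have h2 : Group.IsSolvable (FreeGroup ι ⧸ (FreeGroup.lift g).ker) := by
    refine Group.isSolvable_of_surjective
      (f := QuotientGroup.map (FreeGroup.lift f).ker (FreeGroup.lift g).ker
        (MonoidHom.id (FreeGroup ι)) h) ?_
    intro q
    induction q using QuotientGroup.induction_on with
    | H z => exact ⟨(z : FreeGroup ι ⧸ (FreeGroup.lift f).ker), rfl⟩
  exact Group.isSolvable_of_surjective (f := e2.toMonoidHom) e2.surjective

theorem lift_equivariant {f : ι → Perm X} {g : ι → Perm Y} (π : X → Y)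
    (h : ∀ i x, π (f i x) = g i (π x)) (w : FreeGroup ι) :
    ∀ x, π (FreeGroup.lift f w x) = FreeGroup.lift g w (π x) := by
  induction w using FreeGroup.induction_on with
  | C1 => intro x; simp
  | of i => intro x; simpa using h i x
  | inv_of i _ =>
    intro x
    simp only [map_inv, FreeGroup.lift_apply_of]
    rw [Equiv.Perm.eq_inv_iff_eq, ← h]
    simp
  | mul a b ha hb =>
    intro x
    simp only [map_mul, Perm.mul_apply]
    rw [ha, hb]

theorem sol_of_surj {f : ι → Perm X} {g : ι → Perm Y} (π : X → Y) (hπ : Function.Surjective π)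
    (h : ∀ i x, π (f i x) = g i (π x)) (hf : Sol f) : Sol g := by
  refine sol_of_ker ?_ hf
  intro w hw
  rw [MonoidHom.mem_ker] at hw ⊢
  ext y
  obtain ⟨x, rfl⟩ := hπ y
  rw [← lift_equivariant π h w x, hw]
  rfl

theorem sol_of_inj {f : ι → Perm X} {g : ι → Perm Y} (π : Y → X) (hπ : Function.Injective π)
    (h : ∀ i y, π (g i y) = f i (π y)) (hf : Sol f) : Sol g := by
  refine sol_of_ker ?_ hf
  intro w hw
  rw [MonoidHom.mem_ker] at hw ⊢
  ext y
  apply hπ
  rw [lift_equivariant π h w y, hw]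
  rfl

theorem trans_of_surj {f : ι → Perm X} {g : ι → Perm Y} (π : X → Y)
    (hπ : Function.Surjective π) (h : ∀ i x, π (f i x) = g i (π x)) (hf : Trans f) :
    Trans g := by
  intro a b
  obtain ⟨x, rfl⟩ := hπ a
  obtain ⟨y, rfl⟩ := hπ b
  obtain ⟨w, hw⟩ := hf x y
  exact ⟨w, by rw [← lift_equivariant π h w x, hw]⟩

/-- a nontrivial finite soluble group has a nontrivial elementary abelian normal subgroup -/
theorem exists_elementary (G : Type v) [Group G] [Finite G] [hG : Group.IsSolvable G]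
    [Nontrivial G] : ∃ (p : ℕ) (N : Subgroup G), p.Prime ∧ N.Normal ∧ N ≠ ⊥ ∧
      (∀ a ∈ N, ∀ b ∈ N, a * b = b * a) ∧ ∀ a ∈ N, a ^ p = 1 := by
  classical
  have hex : ∃ n, derivedSeries G n = ⊥ := Group.IsSolvable.solvable
  obtain ⟨m, hm⟩ : ∃ m, Nat.find hex = m + 1 := by
    rcases hn : Nat.find hex with _ | m
    · exfalso
      have := Nat.find_spec hex
      rw [hn, derivedSeries_zero] at this
      exact (bot_ne_top (α := Subgroup G)) this.symm
    · exact ⟨m, rfl⟩
  set M := derivedSeries G m with hM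
  have hMne : M ≠ ⊥ := Nat.find_min hex (by omega)
  have hMM : ⁅M, M⁆ = ⊥ := by
    have := Nat.find_spec hex
    rw [hm, derivedSeries_succ] at this
    exact this
  have hcomm : ∀ a ∈ M, ∀ b ∈ M, a * b = b * a := by
    intro a ha b hb
    have h1 := Subgroup.commutator_mem_commutator ha hb
    rw [hMM, Subgroup.mem_bot, commutatorElement_eq_one_iff_mul_comm] at h1
    exact h1
  have hMn : M.Normal := derivedSeries_normal G m
  have hcard : Nat.card M ≠ 1 := by
    intro h
    exact hMne (Subgroup.card_eq_one.mp h)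
  obtain ⟨p, hp, hpd⟩ := Nat.exists_prime_and_dvd hcard
  have : Fact p.Prime := ⟨hp⟩
  obtain ⟨a, ha⟩ := exists_prime_orderOf_dvd_card' (G := M) p hpd
  let N : Subgroup G :=
    { carrier := {x | x ∈ M ∧ x ^ p = 1}
      mul_mem' := by
        rintro x y ⟨hx, hx'⟩ ⟨hy, hy'⟩
        refine ⟨M.mul_mem hx hy, ?_⟩
        rw [(show Commute x y from hcomm x hx y hy).mul_pow, hx', hy', one_mul]
      one_mem' := ⟨M.one_mem, one_pow _⟩
      inv_mem' := by
        rintro x ⟨hx, hx'⟩
        exact ⟨M.inv_mem hx, by rw [inv_pow, hx', inv_one]⟩ }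
  refine ⟨p, N, hp, ⟨?_⟩, ?_, ?_, ?_⟩
  · rintro n ⟨hn, hn'⟩ g
    refine ⟨hMn.conj_mem n hn g, ?_⟩
    rw [conj_pow, hn', mul_one, mul_inv_cancel]
  · intro h
    have h1 : (a : G) ∈ N := by
      refine ⟨a.2, ?_⟩
      have := pow_orderOf_eq_one a
      rw [ha] at this
      have h2 := congrArg (Subtype.val) this
      simpa using h2
    rw [h, Subgroup.mem_bot] at h1
    have h2 : a = 1 := Subtype.ext h1
    rw [h2, orderOf_one] at ha
    exact hp.one_lt.ne ha
  · intro x hx y hy
    exact hcomm x hx.1 y hy.1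
  · intro x hx
    exact hx.2

/-- the version for permutations -/
theorem exists_elementary_perm [Finite X] (f : ι → Perm X) (hs : Sol f)
    (hne : (FreeGroup.lift f).range ≠ ⊥) :
    ∃ (p : ℕ) (N : Subgroup (Perm X)), p.Prime ∧ N ≤ (FreeGroup.lift f).range ∧ N ≠ ⊥ ∧
      (∀ h ∈ (FreeGroup.lift f).range, ∀ n ∈ N, h * n * h⁻¹ ∈ N) ∧
      (∀ a ∈ N, ∀ b ∈ N, a * b = b * a) ∧ ∀ a ∈ N, a ^ p = 1 := by
  have : Group.IsSolvable (FreeGroup.lift f).range := hs
  have : Nontrivial (FreeGroup.lift f).range :=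
    (Subgroup.nontrivial_iff_ne_bot _).mpr hne
  obtain ⟨p, N, hp, hN, hNne, hc, he⟩ := exists_elementary (FreeGroup.lift f).range
  refine ⟨p, N.map (FreeGroup.lift f).range.subtype, hp, ?_, ?_, ?_, ?_, ?_⟩
  · rintro _ ⟨a, _, rfl⟩
    exact a.2
  · intro h
    apply hNne
    rw [Subgroup.map_eq_bot_iff, Subgroup.ker_subtype] at h
    exact le_bot_iff.mp h
  · rintro h hh _ ⟨n, hn, rfl⟩
    refine ⟨⟨h, hh⟩ * n * ⟨h, hh⟩⁻¹, hN.conj_mem n hn _, ?_⟩
    simp
  · rintro _ ⟨a, ha, rfl⟩ _ ⟨b, hb, rfl⟩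
    have := congrArg Subtype.val (hc a ha b hb)
    simpa using this
  · rintro _ ⟨a, ha, rfl⟩
    have := congrArg Subtype.val (he a ha)
    simpa using this

end Pool.Agent.K4H75.SG
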