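import Pool.Agent.K4H75.SG.Affine

set_option autoImplicit false

/-! Counting isomorphism types of pairs of permutations generating a soluble group. -/

namespace Pool.Agent.K4H75.SG

open Equiv

universe u v w

/-- two families of permutations are isomorphic -/
def Iso {ι : Type u} {X : Type v} {Y : Type w} (f : ι → Perm X) (g : ι → Perm Y) : Prop :=
  ∃ e : X ≃ Y, ∀ i x, e (f i x) = g i (e x)

open Classical in
/-- the family of permutations given by a family of functions -/
noncomputable def mk {ι : Type u} {X : Type v} (F : ι → X → X) : ι → Perm X := fun i =>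
  if h : Function.Bijective (F i) then Equiv.ofBijective _ h else 1

theorem iso_mk {ι : Type u} {X : Type v} {Y : Type w} (f : ι → Perm X) (F : ι → Y → Y)
    (e : X ≃ Y) (h : ∀ i x, e (f i x) = F i (e x)) : Iso f (mk F) := by
  refine ⟨e, ?_⟩
  intro i x
  have hb : Function.Bijective (F i) := by
    have : F i = e ∘ f i ∘ e.symm := by
      funext y
      obtain ⟨x, rfl⟩ := e.surjective y
      simp [h]
    rw [this]
    exact e.bijective.comp ((f i).bijective.comp e.symm.bijective)
  unfold mk
  rw [dif_pos hb]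
  exact h i x

/-- numerical estimate -/
theorem q_pow_le (p k : ℕ) (hp : 2 ≤ p) (hk : 0 < k) : (p ^ k) ^ (k + 1) ≤ 2 ^ (4 * p ^ k) := by
  set q := p ^ k with hq
  have hq2 : 2 ≤ q := by
    calc 2 ≤ p := hp
      _ = p ^ 1 := (pow_one p).symm
      _ ≤ p ^ k := Nat.pow_le_pow_right (by omega) hk
  have hkq : 2 ^ k ≤ q := Nat.pow_le_pow_left hp k
  obtain ⟨l, hl⟩ : ∃ l, Nat.clog 2 q = l + 1 := by
    have : 0 < Nat.clog 2 q := Nat.clog_pos (by norm_num) hq2
    exact ⟨Nat.clog 2 q - 1, by omega⟩
  have h1 : q ≤ 2 ^ (l + 1) := by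
    rw [← hl]
    exact Nat.le_pow_clog (by norm_num) q
  have h2 : 2 ^ l < q := by
    have := Nat.pow_pred_clog_lt_self (b := 2) (by norm_num) (x := q) (by omega)
    rw [hl] at this
    simpa using this
  have h3 : k ≤ l + 1 := by
    have := le_trans hkq h1
    exact (Nat.pow_le_pow_iff_right (by norm_num)).mp this
  have h4 : (l + 1) * (l + 2) ≤ 4 * 2 ^ l := by
    clear h1 h2 h3 hl
    induction l with
    | zero => norm_num
    | succ n ih =>
      rcases Nat.lt_or_ge n 1 with hn | hn
      · interval_cases n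
        norm_num
      · have : (n + 1 + 1) * (n + 1 + 2) ≤ 2 * ((n + 1) * (n + 2)) := by nlinarith
        calc (n + 1 + 1) * (n + 1 + 2) ≤ 2 * ((n + 1) * (n + 2)) := this
          _ ≤ 2 * (4 * 2 ^ n) := Nat.mul_le_mul_left 2 ih
          _ = 4 * 2 ^ (n + 1) := by ring
  calc q ^ (k + 1) ≤ (2 ^ (l + 1)) ^ (k + 1) := Nat.pow_le_pow_left h1 _
    _ ≤ (2 ^ (l + 1)) ^ (l + 2) := Nat.pow_le_pow_right (by positivity) (by omega)
    _ = 2 ^ ((l + 1) * (l + 2)) := (pow_mul _ _ _).symm
    _ ≤ 2 ^ (4 * 2 ^ l) := Nat.pow_le_pow_right (by norm_num) h4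
    _ ≤ 2 ^ (4 * q) := Nat.pow_le_pow_right (by norm_num) (by omega)

/-- one step of the transitive count -/
theorem trans_step (n m p k : ℕ) (hp : p.Prime) (hk : 0 < k) (hmn : m * p ^ k = n)
    (T : Finset (Fin 2 → Perm (Fin m))) (hT : T.card ≤ (2 ^ 20) ^ m) :
    ∃ U : Finset (Fin 2 → Perm (Fin n)), U.card * 4 ^ n ≤ (2 ^ 20) ^ n ∧
      ∀ (X Y : Type) (f : Fin 2 → Perm X) (g : Fin 2 → Perm Y)
        (e : X ≃ Y × (Fin k → ZMod p))
        (A : Fin 2 → Y → Matrix (Fin k) (Fin k) (ZMod p)) (b : Fin 2 → Y → (Fin k → ZMod p)),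
        (∀ i x, e (f i x) = (g i (e x).1, (A i (e x).1).mulVec (e x).2 + b i (e x).1)) →
        (∃ g' ∈ T, Iso g g') → ∃ u ∈ U, Iso f u := by
  classical
  have : Fact p.Prime := ⟨hp⟩
  have hcard : Nat.card (Fin m × (Fin k → ZMod p)) = n := by
    rw [Nat.card_prod, Nat.card_fun, Nat.card_zmod, Nat.card_eq_fintype_card, Fintype.card_fin,
      Nat.card_eq_fintype_card, Fintype.card_fin, hmn]
  let E : Fin m × (Fin k → ZMod p) ≃ Fin n := Finite.equivFinOfCardEq hcard
  let P := (Fin 2 → Fin m → Matrix (Fin k) (Fin k) (ZMod p)) × (Fin 2 → Fin m → (Fin k → ZMod p))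
  let F : (Fin 2 → Perm (Fin m)) × P → Fin 2 → Fin n → Fin n := fun t i z =>
    E (t.1 i (E.symm z).1,
      (t.2.1 i (E.symm z).1).mulVec (E.symm z).2 + t.2.2 i (E.symm z).1)
  refine ⟨(T ×ˢ (Finset.univ : Finset P)).image (fun t => mk (F t)), ?_, ?_⟩
  · have h1 : ((T ×ˢ (Finset.univ : Finset P)).image (fun t => mk (F t))).card ≤
        (2 ^ 20) ^ m * Fintype.card P := by
      refine le_trans Finset.card_image_le ?_
      rw [Finset.card_product, Finset.card_univ]
      exact Nat.mul_le_mul_right _ hT
    have h2 : Fintype.card P = ((p ^ k) ^ (k + 1)) ^ (2 * m) := by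
      have hM : Fintype.card (Matrix (Fin k) (Fin k) (ZMod p)) = (p ^ k) ^ k := by
        show Fintype.card (Fin k → Fin k → ZMod p) = _
        simp [ZMod.card]
      show Fintype.card ((Fin 2 → Fin m → Matrix (Fin k) (Fin k) (ZMod p)) ×
        (Fin 2 → Fin m → (Fin k → ZMod p))) = _
      rw [Fintype.card_prod, Fintype.card_fun, Fintype.card_fun, hM, Fintype.card_fun,
        Fintype.card_fun, Fintype.card_fun, ZMod.card, Fintype.card_fin, Fintype.card_fin,
        Fintype.card_fin]
      generalize p ^ k = q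
      ring
    have h3 : 2 * m ≤ n := by
      rw [← hmn, mul_comm]
      refine Nat.mul_le_mul_left m ?_
      calc 2 ≤ p := hp.two_le
        _ = p ^ 1 := (pow_one p).symm
        _ ≤ p ^ k := Nat.pow_le_pow_right hp.pos hk
    calc _ ≤ ((2 ^ 20) ^ m * Fintype.card P) * 4 ^ n := Nat.mul_le_mul_right _ h1
      _ = (2 ^ 20) ^ m * ((p ^ k) ^ (k + 1)) ^ (2 * m) * 4 ^ n := by rw [h2]
      _ ≤ (2 ^ 20) ^ m * (2 ^ (4 * p ^ k)) ^ (2 * m) * 4 ^ n := by
          refine Nat.mul_le_mul_right _ (Nat.mul_le_mul_left _ ?_)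
          exact Nat.pow_le_pow_left (q_pow_le p k hp.two_le hk) _
      _ = 2 ^ (20 * m + 8 * n + 2 * n) := by
          have h4 : (4 : ℕ) ^ n = 2 ^ (2 * n) := by rw [pow_mul]; norm_num
          rw [h4, ← pow_mul, ← pow_mul, ← pow_add, ← pow_add]
          congr 1
          rw [← hmn]
          ring
      _ ≤ 2 ^ (20 * n) := Nat.pow_le_pow_right (by norm_num) (by omega)
      _ = (2 ^ 20) ^ n := by rw [pow_mul]
  · rintro X Y f g e A b he ⟨g', hg', e', he'⟩
    let t : (Fin 2 → Perm (Fin m)) × P :=
      (g', (fun i j => A i (e'.symm j), fun i j => b i (e'.symm j)))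
    refine ⟨mk (F t), Finset.mem_image_of_mem _ (Finset.mk_mem_product hg' (Finset.mem_univ _)),
      ?_⟩
    refine iso_mk f (F t) (e.trans ((e'.prodCongr (Equiv.refl _)).trans E)) ?_
    intro i x
    show E (e' (e (f i x)).1, (e (f i x)).2) = E (g' i (E.symm (E (e' (e x).1, (e x).2))).1,
      (A i (e'.symm (E.symm (E (e' (e x).1, (e x).2))).1)).mulVec
        (E.symm (E (e' (e x).1, (e x).2))).2 +
      b i (e'.symm (E.symm (E (e' (e x).1, (e x).2))).1))
    rw [he]
    simp only [Equiv.symm_apply_apply]
    rw [he']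

theorem exists_trans_code (n : ℕ) : ∃ T : Finset (Fin 2 → Perm (Fin n)),
    T.card ≤ (2 ^ 20) ^ n ∧ ∀ (X : Type) (_ : Finite X) (f : Fin 2 → Perm X),
      Nat.card X = n → Sol f → Trans f → ∃ g ∈ T, Iso f g := by
  classical
  induction n using Nat.strong_induction_on with
  | _ n ih =>
    rcases Nat.lt_or_ge n 2 with h2 | h2
    · refine ⟨{1}, ?_, ?_⟩
      · rw [Finset.card_singleton]
        exact Nat.one_le_pow _ _ (by norm_num)
      · intro X _ f hc _ _
        have e : X ≃ Fin n := Finite.equivFinOfCardEq hc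
        have : Subsingleton (Fin n) := by
          constructor
          intro a b
          ext
          omega
        exact ⟨1, Finset.mem_singleton_self _, e, fun i x => Subsingleton.elim _ _⟩
    · choose T hT1 hT2 using ih
      have hU : ∀ t : ℕ × ℕ, ∃ U : Finset (Fin 2 → Perm (Fin n)), U.card * 4 ^ n ≤ (2 ^ 20) ^ n ∧
          (t.1.Prime → 0 < t.2 → ∀ m : ℕ, m * t.1 ^ t.2 = n →
          ∀ (X Y : Type) (_ : Finite Y) (f : Fin 2 → Perm X) (g : Fin 2 → Perm Y)
          (e : X ≃ Y × (Fin t.2 → ZMod t.1))
          (A : Fin 2 → Y → Matrix (Fin t.2) (Fin t.2) (ZMod t.1))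
          (b : Fin 2 → Y → (Fin t.2 → ZMod t.1)),
          (∀ i x, e (f i x) = (g i (e x).1, (A i (e x).1).mulVec (e x).2 + b i (e x).1)) →
          Nat.card Y = m → Sol g → Trans g → ∃ u ∈ U, Iso f u) := by
        rintro ⟨p, k⟩
        by_cases h : p.Prime ∧ 0 < k ∧ ∃ m, m * p ^ k = n
        · obtain ⟨hp, hk, m, hm⟩ := h
          have hq : 2 ≤ p ^ k := by
            calc 2 ≤ p := hp.two_le
              _ = p ^ 1 := (pow_one p).symm
              _ ≤ p ^ k := Nat.pow_le_pow_right hp.pos hk
          have hmn : m < n := by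
            rcases Nat.eq_zero_or_pos m with h0 | h0
            · omega
            · rw [← hm]
              nlinarith
          obtain ⟨U, hU1, hU2⟩ := trans_step n m p k hp hk hm (T m hmn) (hT1 m hmn)
          refine ⟨U, hU1, ?_⟩
          rintro _ _ m' hm' X Y _ f g e A b he hc hs ht
          have : m' = m := by
            have h5 : m' * p ^ k = m * p ^ k := by rw [hm, hm']
            exact Nat.eq_of_mul_eq_mul_right (by omega) h5
          subst this
          exact hU2 X Y f g e A b he (hT2 _ hmn Y inferInstance g hc hs ht)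
        · refine ⟨∅, by simp, ?_⟩
          intro hp hk m hm
          exact absurd ⟨hp, hk, m, hm⟩ h
      choose U hU1 hU2 using hU
      refine ⟨(Finset.range (n + 1) ×ˢ Finset.range (n + 1)).biUnion U, ?_, ?_⟩
      · have h4 : 0 < 4 ^ n := by positivity
        refine Nat.le_of_mul_le_mul_right ?_ h4
        calc _ ≤ (∑ t ∈ Finset.range (n + 1) ×ˢ Finset.range (n + 1), (U t).card) * 4 ^ n :=
              Nat.mul_le_mul_right _ Finset.card_biUnion_le
          _ = ∑ t ∈ Finset.range (n + 1) ×ˢ Finset.range (n + 1), (U t).card * 4 ^ n :=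
              Finset.sum_mul _ _ _
          _ ≤ ∑ t ∈ Finset.range (n + 1) ×ˢ Finset.range (n + 1), (2 ^ 20) ^ n :=
              Finset.sum_le_sum (fun t _ => hU1 t)
          _ = (n + 1) * (n + 1) * (2 ^ 20) ^ n := by
              rw [Finset.sum_const, Finset.card_product, Finset.card_range, smul_eq_mul]
          _ ≤ (2 ^ n * 2 ^ n) * (2 ^ 20) ^ n := by
              refine Nat.mul_le_mul_right _ ?_
              have : n + 1 ≤ 2 ^ n := Nat.lt_two_pow_self
              exact Nat.mul_le_mul this this
          _ = (2 ^ 20) ^ n * 4 ^ n := by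
              rw [← mul_pow, mul_comm]
              norm_num
      · intro X _ f hc hs ht
        have : Nontrivial X := by
          have : Fintype X := Fintype.ofFinite X
          rw [← Fintype.one_lt_card_iff_nontrivial, ← Nat.card_eq_fintype_card]
          omega
        obtain ⟨p, k, Y, hY, g, e, A, b, hp, hk, hgs, hgt, he⟩ := exists_affine f hs ht
        have : Fact p.Prime := ⟨hp⟩
        have hm : Nat.card Y * p ^ k = n := by
          rw [← hc, Nat.card_congr e, Nat.card_prod, Nat.card_fun, Nat.card_zmod,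
            Nat.card_eq_fintype_card (α := Fin k), Fintype.card_fin]
        have hYpos : 0 < Nat.card Y := by
          rcases Nat.eq_zero_or_pos (Nat.card Y) with h0 | h0
          · rw [h0] at hm
            omega
          · exact h0
        have hpk : p ^ k ≤ n := by
          rw [← hm]
          exact Nat.le_mul_of_pos_left _ hYpos
        have hpn : p ≤ n := le_trans (by
          calc p = p ^ 1 := (pow_one p).symm
            _ ≤ p ^ k := Nat.pow_le_pow_right hp.pos hk) hpk
        have hkn : k ≤ n := by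
          have : k < p ^ k := Nat.lt_pow_self hp.one_lt
          omega
        obtain ⟨u, hu, hfu⟩ := hU2 (p, k) hp hk _ hm X Y hY f g e A b he rfl hgs hgt
        refine ⟨u, Finset.mem_biUnion.mpr ⟨(p, k), ?_, hu⟩, hfu⟩
        rw [Finset.mem_product, Finset.mem_range, Finset.mem_range]
        exact ⟨by show p < n + 1; omega, by show k < n + 1; omega⟩

theorem exists_code (n : ℕ) : ∃ T : Finset (Fin 2 → Perm (Fin n)),
    T.card ≤ (2 ^ 21) ^ n ∧ ∀ (X : Type) (_ : Finite X) (f : Fin 2 → Perm X),
      Nat.card X = n → Sol f → ∃ g ∈ T, Iso f g := by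
  classical
  induction n using Nat.strong_induction_on with
  | _ n ih =>
    rcases Nat.eq_zero_or_pos n with h2 | h2
    · refine ⟨{1}, ?_, ?_⟩
      · rw [Finset.card_singleton]
        exact Nat.one_le_pow _ _ (by norm_num)
      · intro X _ f hc _
        have e : X ≃ Fin n := Finite.equivFinOfCardEq hc
        have : Subsingleton (Fin n) := by
          constructor
          intro a b
          ext
          omega
        exact ⟨1, Finset.mem_singleton_self _, e, fun i x => Subsingleton.elim _ _⟩
    · have ih' : ∀ k : ℕ, k < n → ∃ T : Finset (Fin 2 → Perm (Fin (n - (k + 1)))),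
          T.card ≤ (2 ^ 21) ^ (n - (k + 1)) ∧ ∀ (X : Type) (_ : Finite X) (f : Fin 2 → Perm X),
          Nat.card X = n - (k + 1) → Sol f → ∃ g ∈ T, Iso f g :=
        fun k hk => ih _ (by omega)
      have hU : ∀ k : ℕ, ∃ U : Finset (Fin 2 → Perm (Fin n)), (k < n →
          U.card ≤ (2 ^ 20) ^ n * 2 ^ (n - 1 - k)) ∧
          (k < n → ∀ (X Y Z : Type) (_ : Finite Y) (_ : Finite Z) (f : Fin 2 → Perm X)
            (g : Fin 2 → Perm Y) (h : Fin 2 → Perm Z) (e : X ≃ Y ⊕ Z),
            (∀ i x, e (f i x) = (Equiv.sumCongr (g i) (h i)) (e x)) →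
            Nat.card Y = k + 1 → Nat.card Z = n - (k + 1) → Sol g → Trans g → Sol h →
            ∃ u ∈ U, Iso f u) := by
        intro k
        by_cases hk : k < n
        · obtain ⟨T1, hT1, hT1'⟩ := exists_trans_code (k + 1)
          obtain ⟨T2, hT2, hT2'⟩ := ih' k hk
          let E : Fin (k + 1) ⊕ Fin (n - (k + 1)) ≃ Fin n :=
            finSumFinEquiv.trans (finCongr (by omega))
          refine ⟨(T1 ×ˢ T2).image (fun t => fun i => E.permCongr (Equiv.sumCongr (t.1 i) (t.2 i))),
            ?_, ?_⟩
          · intro _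
            calc _ ≤ (T1 ×ˢ T2).card := Finset.card_image_le
              _ = T1.card * T2.card := Finset.card_product _ _
              _ ≤ (2 ^ 20) ^ (k + 1) * (2 ^ 21) ^ (n - (k + 1)) := Nat.mul_le_mul hT1 hT2
              _ = (2 ^ 20) ^ n * 2 ^ (n - 1 - k) := by
                rw [← pow_mul, ← pow_mul, ← pow_mul, ← pow_add, ← pow_add]
                congr 1
                omega
          · rintro _ X Y Z _ _ f g h e he hcY hcZ hgs hgt hhs
            obtain ⟨g', hg', e1, he1⟩ := hT1' Y inferInstance g hcY hgs hgt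
            obtain ⟨h', hh', e2, he2⟩ := hT2' Z inferInstance h hcZ hhs
            refine ⟨_, Finset.mem_image_of_mem _ (Finset.mk_mem_product hg' hh'),
              e.trans ((Equiv.sumCongr e1 e2).trans E), ?_⟩
            intro i x
            show E ((Equiv.sumCongr e1 e2) (e (f i x))) =
              E ((Equiv.sumCongr (g' i) (h' i)) (E.symm (E ((Equiv.sumCongr e1 e2) (e x)))))
            rw [he, Equiv.symm_apply_apply]
            congr 1
            rcases e x with y | z
            · simp [he1]
            · simp [he2]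
        · exact ⟨∅, fun h => absurd h hk, fun h => absurd h hk⟩
      choose U hU1 hU2 using hU
      refine ⟨(Finset.range n).biUnion U, ?_, ?_⟩
      · calc _ ≤ ∑ k ∈ Finset.range n, (U k).card := Finset.card_biUnion_le
          _ ≤ ∑ k ∈ Finset.range n, (2 ^ 20) ^ n * 2 ^ (n - 1 - k) :=
              Finset.sum_le_sum (fun k hk => hU1 k (Finset.mem_range.mp hk))
          _ = (2 ^ 20) ^ n * ∑ k ∈ Finset.range n, 2 ^ (n - 1 - k) :=
              (Finset.mul_sum _ _ _).symm
          _ = (2 ^ 20) ^ n * ∑ k ∈ Finset.range n, 2 ^ k := by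
              rw [Finset.sum_range_reflect (fun k => 2 ^ k) n]
          _ ≤ (2 ^ 20) ^ n * 2 ^ n := by
              refine Nat.mul_le_mul_left _ ?_
              rw [Nat.geomSum_eq (by norm_num)]
              simp
          _ = (2 ^ 21) ^ n := by
              rw [← mul_pow]
              norm_num
      · intro X _ f hc hs
        have hXne : Nonempty X := by
          by_contra h
          rw [not_nonempty_iff] at h
          rw [Nat.card_of_isEmpty] at hc
          omega
        obtain ⟨x0⟩ := hXne
        let O : X → Prop := fun x => ∃ w : FreeGroup (Fin 2), FreeGroup.lift f w x0 = x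
        have hO : ∀ i x, O (f i x) ↔ O x := by
          intro i x
          constructor
          · rintro ⟨w, hw⟩
            refine ⟨(FreeGroup.of i)⁻¹ * w, ?_⟩
            rw [map_mul, Perm.mul_apply, hw, map_inv, FreeGroup.lift_apply_of]
            exact pinv1 _ _
          · rintro ⟨w, hw⟩
            refine ⟨(FreeGroup.of i) * w, ?_⟩
            rw [map_mul, Perm.mul_apply, hw, FreeGroup.lift_apply_of]
        have hO' : ∀ i x, ¬ O (f i x) ↔ ¬ O x := fun i x => not_congr (hO i x)
        let g : Fin 2 → Perm {x // O x} := fun i => (f i).subtypePerm (hO i)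
        let h : Fin 2 → Perm {x // ¬ O x} := fun i => (f i).subtypePerm (hO' i)
        have hgs : Sol g := sol_of_inj (fun y : {x // O x} => (y : X)) Subtype.val_injective
          (fun i y => rfl) hs
        have hhs : Sol h := sol_of_inj (fun y : {x // ¬ O x} => (y : X)) Subtype.val_injective
          (fun i y => rfl) hs
        have hgt : Trans g := by
          rintro ⟨x, w1, hw1⟩ ⟨y, w2, hw2⟩
          refine ⟨w2 * w1⁻¹, ?_⟩
          apply Subtype.ext
          have := lift_equivariant (f := g) (g := f) (fun y : {x // O x} => (y : X))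
            (fun i y => rfl) (w2 * w1⁻¹) ⟨x, w1, hw1⟩
          refine this.trans ?_
          show FreeGroup.lift f (w2 * w1⁻¹) x = y
          rw [map_mul, Perm.mul_apply, map_inv, ← hw1, pinv1, hw2]
        have hx0 : O x0 := ⟨1, by simp⟩
        have hpos : 0 < Nat.card {x // O x} := Nat.card_pos_iff.mpr ⟨⟨x0, hx0⟩, inferInstance⟩
        have hsum : Nat.card {x // O x} + Nat.card {x // ¬ O x} = n := by
          rw [← hc, ← Nat.card_sum]
          exact Nat.card_congr (Equiv.sumCompl O)
        obtain ⟨k, hk⟩ : ∃ k, Nat.card {x // O x} = k + 1 := ⟨Nat.card {x // O x} - 1, by omega⟩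
        obtain ⟨u, hu, hfu⟩ := hU2 k (by omega) X {x // O x} {x // ¬ O x} inferInstance
          inferInstance f g h (Equiv.sumCompl O).symm (by
            intro i x
            rw [Equiv.symm_apply_eq]
            rcases hx : (Equiv.sumCompl O).symm x with y | y
            · have : x = y := by
                rw [Equiv.symm_apply_eq] at hx
                exact hx
              rw [this]
              rfl
            · have : x = y := by
                rw [Equiv.symm_apply_eq] at hx
                exact hx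
              rw [this]
              rfl) hk (by omega) hgs hgt hhs
        exact ⟨u, Finset.mem_biUnion.mpr ⟨k, Finset.mem_range.mpr (by omega), hu⟩, hfu⟩

end Pool.Agent.K4H75.SG
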