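import Pool.Agent.K4H75.SG.Code

set_option autoImplicit false

/-! Counting the permutations `σ` for which `y` and `σ z σ⁻¹` generate a soluble group. -/

namespace Pool.Agent.K4H75.SG

open Equiv

variable {X : Type} [Fintype X] [DecidableEq X]

theorem card_conj_le (n : ℕ) (y : Perm X) (g : Perm (Fin n)) :
    (Finset.univ.filter (fun e : X ≃ Fin n => ∀ x, e (y x) = g (e x))).card ≤
      Nat.card (Subgroup.centralizer {y}) := by
  classical
  rcases Finset.eq_empty_or_nonempty
    (Finset.univ.filter (fun e : X ≃ Fin n => ∀ x, e (y x) = g (e x))) with h | ⟨e0, he0⟩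
  · rw [h]
    simp
  · have h0 : ∀ x, e0 (y x) = g (e0 x) := (Finset.mem_filter.mp he0).2
    have h1 : ∀ t, e0.symm (g t) = y (e0.symm t) := by
      intro t
      rw [Equiv.symm_apply_eq, h0, Equiv.apply_symm_apply]
    rw [← Nat.card_eq_finsetCard]
    let F : ↥(Finset.univ.filter (fun e : X ≃ Fin n => ∀ x, e (y x) = g (e x))) →
        Subgroup.centralizer {y} := fun e => ⟨(e : X ≃ Fin n).trans e0.symm, by
          rw [Subgroup.mem_centralizer_singleton_iff]
          have he : ∀ x, (e : X ≃ Fin n) (y x) = g ((e : X ≃ Fin n) x) :=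
            (Finset.mem_filter.mp e.2).2
          ext x
          simp only [Perm.mul_apply, Equiv.trans_apply]
          rw [he, h1]⟩
    refine Nat.card_le_card_of_injective F ?_
    intro a b hab
    have h2 : (a : X ≃ Fin n).trans e0.symm = (b : X ≃ Fin n).trans e0.symm :=
      congrArg Subtype.val hab
    apply Subtype.ext
    ext x
    have h3 := congrArg (fun q : X ≃ X => q x) h2
    simp only [Equiv.trans_apply] at h3
    rw [e0.symm.injective h3]

open Classical in
theorem card_bad_le (y z : Perm X) :
    (Finset.univ.filter (fun σ : Perm X => Sol ![y, σ * z * σ⁻¹])).card ≤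
      (2 ^ 21) ^ (Fintype.card X) *
        (Nat.card (Subgroup.centralizer {y}) * Nat.card (Subgroup.centralizer {z})) := by
  set n := Fintype.card X with hn
  obtain ⟨T, hT1, hT2⟩ := exists_code n
  let E : Perm X → Perm (Fin n) → Finset (X ≃ Fin n) := fun y g =>
    Finset.univ.filter (fun e : X ≃ Fin n => ∀ x, e (y x) = g (e x))
  have hsub : (Finset.univ.filter (fun σ : Perm X => Sol ![y, σ * z * σ⁻¹])) ⊆
      T.biUnion (fun g => (E y (g 0) ×ˢ E z (g 1)).image
        (fun t : (X ≃ Fin n) × (X ≃ Fin n) => (t.2.trans t.1.symm : Perm X))) := by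
    intro σ hσ
    have hs : Sol ![y, σ * z * σ⁻¹] := (Finset.mem_filter.mp hσ).2
    obtain ⟨g, hg, e, he⟩ := hT2 X inferInstance ![y, σ * z * σ⁻¹]
      (by rw [Nat.card_eq_fintype_card]) hs
    rw [Finset.mem_biUnion]
    refine ⟨g, hg, ?_⟩
    rw [Finset.mem_image]
    refine ⟨(e, (σ : X ≃ X).trans e), ?_, ?_⟩
    · rw [Finset.mem_product]
      refine ⟨Finset.mem_filter.mpr ⟨Finset.mem_univ _, fun x => he 0 x⟩,
        Finset.mem_filter.mpr ⟨Finset.mem_univ _, fun x => ?_⟩⟩
      have := he 1 (σ x)
      show e (σ (z x)) = g 1 (e (σ x))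
      rw [← this]
      show _ = e (σ (z (σ⁻¹ (σ x))))
      rw [pinv1]
    · ext x
      simp
  calc _ ≤ _ := Finset.card_le_card hsub
    _ ≤ ∑ g ∈ T, ((E y (g 0) ×ˢ E z (g 1)).image
        (fun t : (X ≃ Fin n) × (X ≃ Fin n) => (t.2.trans t.1.symm : Perm X))).card :=
          Finset.card_biUnion_le
    _ ≤ ∑ g ∈ T, (Nat.card (Subgroup.centralizer {y}) * Nat.card (Subgroup.centralizer {z})) := by
        refine Finset.sum_le_sum (fun g _ => ?_)
        refine le_trans Finset.card_image_le ?_
        rw [Finset.card_product]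
        exact Nat.mul_le_mul (card_conj_le n y (g 0)) (card_conj_le n z (g 1))
    _ = T.card * (Nat.card (Subgroup.centralizer {y}) * Nat.card (Subgroup.centralizer {z})) := by
        rw [Finset.sum_const, smul_eq_mul]
    _ ≤ _ := Nat.mul_le_mul_right _ hT1

/-- the centralizer of a permutation of prime order at least three with at most one fixed
point is small -/
theorem card_centralizer_le (y : Perm X) (r : ℕ) (hr : r.Prime) (h3 : 3 ≤ r)
    (ho : orderOf y = r) (hf : Fintype.card X ≤ y.support.card + 1) :
    Nat.card (Subgroup.centralizer {y}) ≤ Fintype.card X ^ (Fintype.card X / 3) := by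
  set n := Fintype.card X with hn
  obtain ⟨m, hm⟩ := Equiv.Perm.cycleType_prime_order (σ := y) (by rw [ho]; exact hr)
  rw [ho] at hm
  have hsum : y.cycleType.sum = (m + 1) * r := by
    rw [hm, Multiset.sum_replicate, smul_eq_mul]
  have hs2 := Equiv.Perm.sum_cycleType y
  have hle : (m + 1) * r ≤ n := by
    rw [← hsum]
    exact Equiv.Perm.sum_cycleType_le y
  have hn1 : n - (m + 1) * r ≤ 1 := by
    rw [← hsum, hs2]
    omega
  have hf1 : (n - (m + 1) * r).factorial = 1 := Nat.factorial_eq_one.mpr hn1
  rw [Equiv.Perm.nat_card_centralizer, hsum, ← hn, hf1, one_mul, hm, Multiset.prod_replicate,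
    Multiset.toFinset_replicate, if_neg (by omega), Finset.prod_singleton,
    Multiset.count_replicate_self]
  have hstep : ∀ j : ℕ, j * r ≤ n → r ^ j * j.factorial ≤ n ^ j := by
    intro j
    induction j with
    | zero => simp
    | succ j ih =>
      intro hj
      have h1 := ih (by nlinarith)
      calc r ^ (j + 1) * (j + 1).factorial = ((j + 1) * r) * (r ^ j * j.factorial) := by
            rw [Nat.factorial_succ]
            ring
        _ ≤ n * n ^ j := Nat.mul_le_mul hj h1
        _ = n ^ (j + 1) := by ring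
  refine le_trans (hstep (m + 1) hle) ?_
  have hnpos : 0 < n := by
    have : 0 < (m + 1) * r := by positivity
    omega
  refine Nat.pow_le_pow_right hnpos ?_
  rw [Nat.le_div_iff_mul_le (by norm_num)]
  exact le_trans (Nat.mul_le_mul_left _ h3) hle

end Pool.Agent.K4H75.SG
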