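import Mathlib

set_option autoImplicit false

namespace Pool.Agent.K4H75.SG

theorem pow_self_le (p : ℕ) : p ^ p ≤ 3 ^ p * p.factorial := by
  have h1 := Real.pow_div_factorial_le_exp (p : ℝ) (Nat.cast_nonneg p) p
  have h2 : Real.exp (p : ℝ) ≤ 3 ^ p := by
    rw [← mul_one (p : ℝ), Real.exp_nat_mul]
    exact pow_le_pow_left₀ (Real.exp_pos 1).le Real.exp_one_lt_three.le p
  have h3 : (0 : ℝ) < p.factorial := by exact_mod_cast Nat.factorial_pos p
  have h4 : (p : ℝ) ^ p ≤ 3 ^ p * p.factorial := by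
    rw [← div_le_iff₀ h3]
    exact h1.trans h2
  exact_mod_cast h4

theorem numeric (p : ℕ) (hp : 2 ^ 100 ≤ p) :
    p ^ 2 + p ^ 2 * p ^ 2 * ((2 ^ 21) ^ p * (p ^ (p / 3) * p ^ (p / 3))) < p.factorial := by
  by_contra hcon
  rw [not_lt] at hcon
  have hpp : 2000 ≤ p := le_trans (by norm_num) hp
  have hppos : 0 < p := by omega
  set D := (2 ^ 21) ^ p * (p ^ (p / 3) * p ^ (p / 3)) with hD
  have hD1 : 1 ≤ D := Nat.one_le_iff_ne_zero.mpr (by positivity)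
  have h1 : p ^ 2 + p ^ 2 * p ^ 2 * D ≤ p ^ 5 * D := by
    have h2 : p ^ 2 ≤ p ^ 4 * D := by
      calc p ^ 2 ≤ p ^ 4 := Nat.pow_le_pow_right hppos (by norm_num)
        _ = p ^ 4 * 1 := (mul_one _).symm
        _ ≤ p ^ 4 * D := Nat.mul_le_mul_left _ hD1
    calc p ^ 2 + p ^ 2 * p ^ 2 * D ≤ p ^ 4 * D + p ^ 4 * D := by
          refine Nat.add_le_add h2 (le_of_eq (by ring))
      _ = 2 * (p ^ 4 * D) := by ring
      _ ≤ p * (p ^ 4 * D) := Nat.mul_le_mul_right _ (by omega)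
      _ = p ^ 5 * D := by ring
  have h3 : p ^ p ≤ 2 ^ (23 * p) * p ^ (5 + p / 3 + p / 3) := by
    calc p ^ p ≤ 3 ^ p * p.factorial := pow_self_le p
      _ ≤ (2 ^ 2) ^ p * (p ^ 5 * D) := by
          refine Nat.mul_le_mul (Nat.pow_le_pow_left (by norm_num) p) (hcon.trans h1)
      _ = 2 ^ (23 * p) * p ^ (5 + p / 3 + p / 3) := by
          rw [hD, ← pow_mul, ← pow_mul, pow_add, pow_add,
            show 23 * p = 2 * p + 21 * p by ring, pow_add]
          ring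
  obtain ⟨m, hm⟩ : ∃ m, p = (5 + p / 3 + p / 3) + m := ⟨p - (5 + p / 3 + p / 3), by omega⟩
  have h4 : p ^ m ≤ 2 ^ (23 * p) := by
    have h5 : p ^ (5 + p / 3 + p / 3) * p ^ m ≤ p ^ (5 + p / 3 + p / 3) * 2 ^ (23 * p) := by
      rw [← pow_add, ← hm, mul_comm (p ^ (5 + p / 3 + p / 3))]
      exact h3
    exact Nat.le_of_mul_le_mul_left h5 (by positivity)
  have h6 : 2 ^ (100 * m) ≤ 2 ^ (23 * p) := by
    rw [pow_mul]
    exact (Nat.pow_le_pow_left hp m).trans h4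
  have h7 : 100 * m ≤ 23 * p := (Nat.pow_le_pow_iff_right (by norm_num)).mp h6
  omega

end Pool.Agent.K4H75.SG
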