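import Pool.Agent.K4H75.SG.PrimeDeg
import Pool.Agent.K4H75.SG.Numeric

set_option autoImplicit false

/-! The main argument. -/

namespace Pool.Agent.K4H75.SG

open Equiv

universe u v

/-- two elements generate a soluble subgroup -/
def SolPair {G : Type u} [Group G] (a b : G) : Prop :=
  Group.IsSolvable (Subgroup.closure ({a, b} : Set G))

theorem solPair_mono {G : Type u} [Group G] {a b c d : G} (h : SolPair a b)
    (hc : c ∈ Subgroup.closure ({a, b} : Set G)) (hd : d ∈ Subgroup.closure ({a, b} : Set G)) :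
    SolPair c d := by
  have hle : Subgroup.closure ({c, d} : Set G) ≤ Subgroup.closure ({a, b} : Set G) := by
    rw [Subgroup.closure_le]
    rintro x (rfl | rfl)
    · exact hc
    · exact hd
  unfold SolPair at h ⊢
  exact Group.isSolvable_of_isSolvable_injective (Subgroup.inclusion_injective hle)

theorem solPair_symm {G : Type u} [Group G] {a b : G} (h : SolPair a b) : SolPair b a :=
  solPair_mono h (Subgroup.subset_closure (by simp)) (Subgroup.subset_closure (by simp))

theorem solPair_self {G : Type u} [Group G] (a : G) : SolPair a a := by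
  unfold SolPair
  refine Group.isSolvable_of_comm ?_
  rintro ⟨x, hx⟩ ⟨y, hy⟩
  rw [Set.pair_eq_singleton, ← Subgroup.zpowers_eq_closure] at hx hy
  obtain ⟨m, rfl⟩ := hx
  obtain ⟨n, rfl⟩ := hy
  apply Subtype.ext
  show a ^ m * a ^ n = a ^ n * a ^ m
  rw [← zpow_add, ← zpow_add, add_comm]

theorem solPair_map {G : Type u} {H : Type v} [Group G] [Group H] (f : G →* H) {a b : G}
    (h : SolPair a b) : SolPair (f a) (f b) := by
  unfold SolPair at h ⊢
  have h1 : Subgroup.closure ({f a, f b} : Set H) =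
      (Subgroup.closure ({a, b} : Set G)).map f := by
    rw [MonoidHom.map_closure, Set.image_pair]
  rw [h1]
  exact Group.isSolvable_of_surjective
    (f := f.subgroupMap (Subgroup.closure ({a, b} : Set G)))
    (f.subgroupMap_surjective _)

theorem solPair_of_map {G : Type u} {H : Type v} [Group G] [Group H] (f : G →* H)
    (hf : Function.Injective f) {a b : G} (h : SolPair (f a) (f b)) : SolPair a b := by
  unfold SolPair at h ⊢
  have h1 : Subgroup.closure ({f a, f b} : Set H) =
      (Subgroup.closure ({a, b} : Set G)).map f := by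
    rw [MonoidHom.map_closure, Set.image_pair]
  rw [h1] at h
  exact Group.isSolvable_of_isSolvable_injective
    (f := f.subgroupMap (Subgroup.closure ({a, b} : Set G))) (by
      intro x y hxy
      apply Subtype.ext
      apply hf
      exact congrArg Subtype.val hxy)

theorem sol_iff {X : Type v} (a b : Perm X) : Sol ![a, b] ↔ SolPair a b := by
  unfold Sol SolPair
  rw [FreeGroup.range_lift_eq_closure]
  have : Set.range ![a, b] = {a, b} := by
    ext x
    constructor
    · rintro ⟨i, rfl⟩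
      fin_cases i <;> simp
    · rintro (rfl | rfl)
      · exact ⟨0, rfl⟩
      · exact ⟨1, rfl⟩
  rw [this]

variable {p : ℕ}

theorem tr_mem_of_order [hpf : Fact p.Prime] {y : Perm (ZMod p)} (h : IsAff y)
    (ho : orderOf y = p) : ∃ (n : ℕ) (c : ZMod p), y ^ n = tr p ∧ ∀ t, y t = t + c := by
  obtain ⟨a, b, hab⟩ := h
  have hp := hpf.out
  have ha : a = 1 := by
    by_contra hne
    have hne' : (1 - a) ≠ 0 := sub_ne_zero.mpr (Ne.symm hne)
    have hfix : y (b / (1 - a)) = b / (1 - a) := by
      rw [hab]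
      field_simp
      ring
    have h1 : b / (1 - a) ∉ y.support := by
      rw [Perm.notMem_support]
      exact hfix
    have h2 : y.support.card < p := by
      have h3 : y.support.card < (Finset.univ : Finset (ZMod p)).card := by
        refine Finset.card_lt_card ?_
        rw [Finset.ssubset_univ_iff]
        intro h4
        rw [h4] at h1
        exact h1 (Finset.mem_univ _)
      rwa [Finset.card_univ, ZMod.card] at h3
    obtain ⟨m, hm⟩ := Equiv.Perm.cycleType_prime_order (σ := y) (by rw [ho]; exact hp)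
    have hsum := Equiv.Perm.sum_cycleType y
    rw [hm, Multiset.sum_replicate, smul_eq_mul, ho] at hsum
    have : p ≤ (m + 1) * p := Nat.le_mul_of_pos_left _ (by omega)
    omega
  subst ha
  have h1 : ∀ t, y t = t + b := fun t => by rw [hab, one_mul]
  have hb : b ≠ 0 := by
    rintro rfl
    have : y = 1 := by
      ext t
      rw [h1]
      simp
    rw [this, orderOf_one] at ho
    exact hp.one_lt.ne ho
  refine ⟨(b⁻¹).val, b, ?_, h1⟩
  ext t
  rw [aff_one_pow y b h1, ZMod.natCast_zmod_val, inv_mul_cancel₀ hb, tr_apply]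

open Classical in
theorem exists_good [hpf : Fact p.Prime] (hp : 2 ^ 100 ≤ p) (hp4 : p % 4 = 3) :
    ∃ σ : Perm (ZMod p), ¬ IsAff σ ∧
      ∀ y z : Perm (ZMod p), InE y → InE z → ¬ SolPair y (σ * z * σ⁻¹) := by
  by_contra hcon
  push Not at hcon
  let A := Finset.univ.filter (fun y : Perm (ZMod p) => IsAff y)
  let E := Finset.univ.filter (fun y : Perm (ZMod p) => InE y)
  have hEA : E ⊆ A := by
    intro y hy
    exact Finset.mem_filter.mpr ⟨Finset.mem_univ _, (Finset.mem_filter.mp hy).2.aff⟩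
  have hA : A.card ≤ p ^ 2 := card_aff_le
  have hE : E.card ≤ p ^ 2 := (Finset.card_le_card hEA).trans hA
  have hsub : (Finset.univ : Finset (Perm (ZMod p))) ⊆ A ∪ (E ×ˢ E).biUnion (fun t =>
      Finset.univ.filter (fun σ : Perm (ZMod p) => Sol ![t.1, σ * t.2 * σ⁻¹])) := by
    intro σ _
    rw [Finset.mem_union]
    by_cases hσ : IsAff σ
    · exact Or.inl (Finset.mem_filter.mpr ⟨Finset.mem_univ _, hσ⟩)
    · right
      obtain ⟨y, z, hy, hz, hs⟩ := hcon σ hσ
      rw [Finset.mem_biUnion]
      refine ⟨(y, z), ?_, ?_⟩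
      · rw [Finset.mem_product]
        exact ⟨Finset.mem_filter.mpr ⟨Finset.mem_univ _, hy⟩,
          Finset.mem_filter.mpr ⟨Finset.mem_univ _, hz⟩⟩
      · exact Finset.mem_filter.mpr ⟨Finset.mem_univ _, (sol_iff _ _).mpr hs⟩
  have h1 := Finset.card_le_card hsub
  rw [Finset.card_univ, Fintype.card_perm, ZMod.card] at h1
  have h2 : (A ∪ (E ×ˢ E).biUnion (fun t =>
      Finset.univ.filter (fun σ : Perm (ZMod p) => Sol ![t.1, σ * t.2 * σ⁻¹]))).card ≤
      p ^ 2 + p ^ 2 * p ^ 2 * ((2 ^ 21) ^ p * (p ^ (p / 3) * p ^ (p / 3))) := by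
    refine (Finset.card_union_le _ _).trans ?_
    refine Nat.add_le_add hA ?_
    refine Finset.card_biUnion_le.trans ?_
    calc _ ≤ ∑ t ∈ E ×ˢ E, ((2 ^ 21) ^ p * (p ^ (p / 3) * p ^ (p / 3))) := by
          refine Finset.sum_le_sum (fun t ht => ?_)
          rw [Finset.mem_product] at ht
          have h3 := card_bad_le t.1 t.2
          rw [ZMod.card] at h3
          refine h3.trans (Nat.mul_le_mul_left _ ?_)
          exact Nat.mul_le_mul (((Finset.mem_filter.mp ht.1).2).centralizer hp4)
            (((Finset.mem_filter.mp ht.2).2).centralizer hp4)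
      _ = (E.card * E.card) * ((2 ^ 21) ^ p * (p ^ (p / 3) * p ^ (p / 3))) := by
          rw [Finset.sum_const, Finset.card_product, smul_eq_mul]
      _ ≤ _ := Nat.mul_le_mul_right _ (Nat.mul_le_mul hE hE)
  exact absurd (h1.trans h2) (not_le.mpr (numeric p hp))

theorem solPair_conj {G : Type u} [Group G] (g : G) {a b : G} (h : SolPair a b) :
    SolPair (g * a * g⁻¹) (g * b * g⁻¹) := solPair_map (MulAut.conj g).toMonoidHom h

/-- no path of length three, prime order version -/
theorem no_path_prime [hpf : Fact p.Prime] (σ : Perm (ZMod p)) (hσ : ¬ IsAff σ)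
    (hg : ∀ y z : Perm (ZMod p), InE y → InE z → ¬ SolPair y (σ * z * σ⁻¹))
    (y z : Perm (ZMod p)) (hy : (orderOf y).Prime) (hz : (orderOf z).Prime)
    (hys : Perm.sign y = 1) (hzs : Perm.sign z = 1) (h1 : SolPair (tr p) y) (h2 : SolPair y z)
    (h3 : SolPair z (σ * tr p * σ⁻¹)) : False := by
  set w := σ⁻¹ * z * σ with hw
  have hzw : z = σ * w * σ⁻¹ := by rw [hw]; group
  have hws : Perm.sign w = 1 := by
    rw [hw, Perm.sign_mul, Perm.sign_mul, Perm.sign_inv, hzs, mul_one]
    exact Int.units_mul_self _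
  have how : orderOf w = orderOf z := by
    have : w = σ⁻¹ * z * σ⁻¹⁻¹ := by rw [hw, inv_inv]
    rw [this]
    exact (SemiconjBy.conj_mk σ⁻¹ z).orderOf_eq.symm
  have hyA : IsAff y := isAff_of_sol y ((sol_iff _ _).mpr h1)
  have hwA : IsAff w := by
    apply isAff_of_sol w
    rw [sol_iff]
    have h4 := solPair_conj σ⁻¹ h3
    have h5 : σ⁻¹ * (σ * tr p * σ⁻¹) * σ⁻¹⁻¹ = tr p := by group
    have h6 : σ⁻¹ * z * σ⁻¹⁻¹ = w := by rw [hw, inv_inv]
    rw [h5, h6] at h4
    exact solPair_symm h4
  have hycl : y ∈ Subgroup.closure ({y, z} : Set (Perm (ZMod p))) :=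
    Subgroup.subset_closure (by simp)
  have hzcl : z ∈ Subgroup.closure ({y, z} : Set (Perm (ZMod p))) :=
    Subgroup.subset_closure (by simp)
  by_cases hyp : orderOf y = p
  · obtain ⟨n, c, hn, -⟩ := tr_mem_of_order hyA hyp
    have hzA : IsAff z := by
      apply isAff_of_sol z
      rw [sol_iff]
      refine solPair_mono h2 ?_ hzcl
      rw [← hn]
      exact Subgroup.pow_mem _ hycl n
    by_cases hzp : orderOf z = p
    · apply hσ
      obtain ⟨m, d, hm, hd⟩ := tr_mem_of_order hzA hzp
      obtain ⟨k, e, hk, he⟩ := tr_mem_of_order hwA (how.trans hzp)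
      have h7 : z ^ k = σ * tr p * σ⁻¹ := by
        rw [hzw, conj_pow, hk]
      have h8 : ∀ s, σ (s + 1) = σ s + k * d := by
        intro s
        rw [← aff_one_pow z d hd k (σ s), h7]
        show _ = σ (tr p (σ⁻¹ (σ s)))
        rw [pinv1, tr_apply]
      have h9 : ∀ n : ℕ, σ (n : ZMod p) = (k * d) * n + σ 0 := by
        intro n
        induction n with
        | zero => simp
        | succ n ih =>
          push_cast
          rw [h8, ih]
          ring
      refine ⟨k * d, σ 0, ?_⟩
      intro t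
      have := h9 t.val
      rwa [ZMod.natCast_zmod_val] at this
    · refine hg z w ⟨hzA, hzs, hz, hzp⟩ ⟨hwA, hws, by rw [how]; exact hz, by rw [how]; exact hzp⟩ ?_
      rw [← hzw]
      exact solPair_self z
  · by_cases hzp : orderOf z = p
    · obtain ⟨k, e, hk, he⟩ := tr_mem_of_order hwA (how.trans hzp)
      have h7 : z ^ k = σ * tr p * σ⁻¹ := by
        rw [hzw, conj_pow, hk]
      have h8 : SolPair y (σ * tr p * σ⁻¹) := by
        refine solPair_mono h2 hycl ?_
        rw [← h7]
        exact Subgroup.pow_mem _ hzcl k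
      have h9 := solPair_conj σ⁻¹ h8
      have h10 : σ⁻¹ * (σ * tr p * σ⁻¹) * σ⁻¹⁻¹ = tr p := by group
      rw [h10] at h9
      have hvA : IsAff (σ⁻¹ * y * σ⁻¹⁻¹) := isAff_of_sol _ ((sol_iff _ _).mpr (solPair_symm h9))
      have hov : orderOf (σ⁻¹ * y * σ⁻¹⁻¹) = orderOf y :=
        (SemiconjBy.conj_mk σ⁻¹ y).orderOf_eq.symm
      refine hg y (σ⁻¹ * y * σ⁻¹⁻¹) ⟨hyA, hys, hy, hyp⟩ ⟨hvA, ?_, by rw [hov]; exact hy,
        by rw [hov]; exact hyp⟩ ?_
      · rw [Perm.sign_mul, Perm.sign_mul, hys, mul_one, inv_inv, Perm.sign_inv]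
        exact Int.units_mul_self _
      · have : σ * (σ⁻¹ * y * σ⁻¹⁻¹) * σ⁻¹ = y := by group
        rw [this]
        exact solPair_self y
    · refine hg y w ⟨hyA, hys, hy, hyp⟩ ⟨hwA, hws, by rw [how]; exact hz, by rw [how]; exact hzp⟩ ?_
      rw [← hzw]
      exact h2

theorem exists_pow_prime {G : Type u} [Group G] [Finite G] (y : G) (hy : y ≠ 1) :
    ∃ n : ℕ, (orderOf (y ^ n)).Prime := by
  have h1 : orderOf y ≠ 1 := by
    intro h
    exact hy (orderOf_eq_one_iff.mp h)
  obtain ⟨r, hr, hd⟩ := Nat.exists_prime_and_dvd h1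
  refine ⟨orderOf y / r, ?_⟩
  rw [orderOf_pow_orderOf_div (orderOf_pos y).ne' hd]
  exact hr

/-- no path of length three -/
theorem no_path [hpf : Fact p.Prime] (σ : Perm (ZMod p)) (hσ : ¬ IsAff σ)
    (hg : ∀ y z : Perm (ZMod p), InE y → InE z → ¬ SolPair y (σ * z * σ⁻¹))
    (y z : Perm (ZMod p)) (hy : y ≠ 1) (hz : z ≠ 1)
    (hys : Perm.sign y = 1) (hzs : Perm.sign z = 1) (h1 : SolPair (tr p) y) (h2 : SolPair y z)
    (h3 : SolPair z (σ * tr p * σ⁻¹)) : False := by
  obtain ⟨m, hm⟩ := exists_pow_prime y hy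
  obtain ⟨n, hn⟩ := exists_pow_prime z hz
  refine no_path_prime σ hσ hg (y ^ m) (z ^ n) hm hn (by rw [map_pow, hys, one_pow])
    (by rw [map_pow, hzs, one_pow]) ?_ ?_ ?_
  · exact solPair_mono h1 (Subgroup.subset_closure (by simp))
      (Subgroup.pow_mem _ (Subgroup.subset_closure (by simp)) _)
  · exact solPair_mono h2 (Subgroup.pow_mem _ (Subgroup.subset_closure (by simp)) _)
      (Subgroup.pow_mem _ (Subgroup.subset_closure (by simp)) _)
  · exact solPair_mono h3 (Subgroup.pow_mem _ (Subgroup.subset_closure (by simp)) _)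
      (Subgroup.subset_closure (by simp))

end Pool.Agent.K4H75.SG
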