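import Pool.Agent.K4H75.SG.Count

set_option autoImplicit false

/-! Prime degree. -/

namespace Pool.Agent.K4H75.SG

open Equiv

variable {p : ℕ}

/-- the translation `t ↦ t + 1` -/
def tr (p : ℕ) : Perm (ZMod p) := Equiv.addRight 1

theorem tr_apply (t : ZMod p) : tr p t = t + 1 := rfl

theorem tr_pow (n : ℕ) (t : ZMod p) : ((tr p) ^ n) t = t + n := by
  induction n with
  | zero => simp
  | succ n ih =>
    rw [pow_succ', Perm.mul_apply, ih, tr_apply]
    push_cast
    ring

/-- affine permutations -/
def IsAff (y : Perm (ZMod p)) : Prop := ∃ a b : ZMod p, ∀ t, y t = a * t + b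

theorem trans_tr [Fact p.Prime] (y : Perm (ZMod p)) : Trans ![tr p, y] := by
  intro s t
  refine ⟨(FreeGroup.of 0) ^ (t - s).val, ?_⟩
  rw [map_pow, FreeGroup.lift_apply_of]
  show ((tr p) ^ (t - s).val) s = t
  rw [tr_pow, ZMod.natCast_zmod_val]
  ring

theorem isAff_of_sol [hpf : Fact p.Prime] (y : Perm (ZMod p)) (h : Sol ![tr p, y]) : IsAff y := by
  obtain ⟨q, k, Y, hY, g, e, A, b, hq, hk, -, -, he⟩ := exists_affine _ h (trans_tr y)
  have : Fact q.Prime := ⟨hq⟩
  have hp := hpf.out
  have hm : Nat.card Y * q ^ k = p := by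
    rw [← Nat.card_zmod p, Nat.card_congr e, Nat.card_prod, Nat.card_fun, Nat.card_zmod,
      Nat.card_eq_fintype_card (α := Fin k), Fintype.card_fin]
  have hqp : q = p := by
    have h1 : q ∣ p := by
      rw [← hm]
      exact Dvd.dvd.mul_left (dvd_pow_self q (by omega)) _
    exact (Nat.prime_dvd_prime_iff_eq hq hp).mp h1
  subst hqp
  have hY1 : Nat.card Y = 1 ∧ k = 1 := by
    obtain ⟨j, rfl⟩ : ∃ j, k = j + 1 := ⟨k - 1, by omega⟩
    have h2 : (Nat.card Y * q ^ j) * q = 1 * q := by
      rw [one_mul, mul_assoc, ← pow_succ, hm]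
    have h3 := Nat.eq_of_mul_eq_mul_right hq.pos h2
    have h4 : Nat.card Y = 1 := Nat.dvd_one.mp ⟨_, h3.symm⟩
    have h5 : q ^ j = 1 := Nat.dvd_one.mp ⟨_, (mul_comm _ _).trans h3 |>.symm⟩
    refine ⟨h4, ?_⟩
    rcases Nat.eq_zero_or_pos j with hj | hj
    · rw [hj]
    · exfalso
      have : 1 < q ^ j := Nat.one_lt_pow (by omega) hq.one_lt
      omega
  obtain ⟨hY1, rfl⟩ := hY1
  have hsub : Subsingleton Y := (Nat.card_eq_one_iff_unique.mp hY1).1
  obtain ⟨y0⟩ : Nonempty Y := (Nat.card_eq_one_iff_unique.mp hY1).2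
  let u : ZMod q → ZMod q := fun t => (e t).2 0
  have hu : ∀ i t, u (![tr q, y] i t) = A i y0 0 0 * u t + b i y0 0 := by
    intro i t
    show (e (![tr q, y] i t)).2 0 = _
    rw [he]
    have : (e t).1 = y0 := Subsingleton.elim _ _
    rw [this]
    simp [Matrix.mulVec, dotProduct, u]
  have hinj : Function.Injective u := by
    intro s t hst
    apply e.injective
    refine Prod.ext (Subsingleton.elim _ _) ?_
    funext i
    have : i = 0 := Subsingleton.elim _ _
    rw [this]
    exact hst
  have hsurj : Function.Surjective u := Finite.surjective_of_injective hinj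
  set α := A 0 y0 0 0 with hα
  set β := b 0 y0 0 with hβ
  set α' := A 1 y0 0 0 with hα'
  set β' := b 1 y0 0 with hβ'
  have h0 : ∀ t, u (t + 1) = α * u t + β := fun t => hu 0 t
  have h1 : ∀ t, u (y t) = α' * u t + β' := fun t => hu 1 t
  have hα1 : α = 1 := by
    by_contra hne
    have hne' : (1 - α) ≠ 0 := sub_ne_zero.mpr (Ne.symm hne)
    obtain ⟨t, ht⟩ := hsurj (β / (1 - α))
    have h2 : u (t + 1) = u t := by
      rw [h0, ht]
      field_simp
      ring
    have h3 := hinj h2
    have h4 : (1 : ZMod q) = 0 := by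
      have := congrArg (fun z => z - t) h3
      simp at this
    exact one_ne_zero h4
  have hβ0 : β ≠ 0 := by
    intro hz
    have h2 : u (0 + 1) = u 0 := by rw [h0, hα1, hz]; ring
    have h3 := hinj h2
    rw [zero_add] at h3
    exact one_ne_zero h3
  have hlin : ∀ t, u t = u 0 + β * t := by
    intro t
    have : ∀ n : ℕ, u (n : ZMod q) = u 0 + β * n := by
      intro n
      induction n with
      | zero => simp
      | succ n ih =>
        push_cast
        rw [h0, hα1, ih]
        ring
    have h2 := this t.val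
    rwa [ZMod.natCast_zmod_val] at h2
  refine ⟨α', (α' * u 0 + β' - u 0) / β, ?_⟩
  intro t
  have h2 := h1 t
  rw [hlin (y t), hlin t] at h2
  field_simp
  linear_combination h2

open Classical in
theorem card_aff_le [Fact p.Prime] :
    (Finset.univ.filter (fun y : Perm (ZMod p) => IsAff y)).card ≤ p ^ 2 := by
  have h1 : ∀ y : Perm (ZMod p), ∃ c : ZMod p × ZMod p, IsAff y → ∀ t, y t = c.1 * t + c.2 := by
    intro y
    by_cases h : IsAff y
    · obtain ⟨a, b, hab⟩ := h
      exact ⟨(a, b), fun _ => hab⟩
    · exact ⟨(0, 0), fun h' => absurd h' h⟩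
  choose c hc using h1
  calc _ ≤ (Finset.univ : Finset (ZMod p × ZMod p)).card := by
        refine Finset.card_le_card_of_injOn c (fun _ _ => Finset.mem_univ _) ?_
        intro y hy z hz hyz
        have hy' : IsAff y := by simpa using hy
        have hz' : IsAff z := by simpa using hz
        ext t
        rw [hc y hy', hc z hz', hyz]
    _ = p ^ 2 := by
        rw [Finset.card_univ, Fintype.card_prod, ZMod.card, pow_two]

/-- the prime order affine even permutations other than translations -/
structure InE (y : Perm (ZMod p)) [NeZero p] : Prop where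
  aff : IsAff y
  even : Perm.sign y = 1
  prime : (orderOf y).Prime
  ne : orderOf y ≠ p

theorem aff_one_pow (y : Perm (ZMod p)) (b : ZMod p) (h : ∀ t, y t = t + b) (n : ℕ) (t : ZMod p) :
    (y ^ n) t = t + n * b := by
  induction n with
  | zero => simp
  | succ n ih =>
    rw [pow_succ', Perm.mul_apply, ih, h]
    push_cast
    ring

theorem InE.support [hpf : Fact p.Prime] {y : Perm (ZMod p)} (h : InE y) :
    p ≤ y.support.card + 1 := by
  obtain ⟨a, b, hab⟩ := h.aff
  have ha : a ≠ 1 := by
    rintro rfl
    have h1 : ∀ t, y t = t + b := fun t => by rw [hab, one_mul]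
    have h2 : y ^ p = 1 := by
      ext t
      rw [aff_one_pow y b h1]
      simp
    have h3 : orderOf y ∣ p := orderOf_dvd_of_pow_eq_one h2
    exact h.ne ((Nat.prime_dvd_prime_iff_eq h.prime hpf.out).mp h3)
  have h1 : (y.supportᶜ).card ≤ 1 := by
    rw [Finset.card_le_one]
    intro s hs t ht
    rw [Finset.mem_compl, Perm.notMem_support, hab] at hs ht
    have h2 : (a - 1) * (s - t) = 0 := by linear_combination hs - ht
    rcases mul_eq_zero.mp h2 with h3 | h3
    · exact absurd (sub_eq_zero.mp h3) ha
    · exact sub_eq_zero.mp h3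
  have h2 := Finset.card_add_card_compl y.support
  rw [ZMod.card] at h2
  omega

theorem InE.centralizer [hpf : Fact p.Prime] (hp4 : p % 4 = 3) {y : Perm (ZMod p)} (h : InE y) :
    Nat.card (Subgroup.centralizer {y}) ≤ p ^ (p / 3) := by
  have h1 := h.support
  have h3 : 3 ≤ orderOf y := by
    have h2 := h.prime.two_le
    rcases Nat.lt_or_ge 2 (orderOf y) with h4 | h4
    · exact h4
    · exfalso
      have h5 : orderOf y = 2 := le_antisymm h4 h2
      obtain ⟨m, hm⟩ := Equiv.Perm.cycleType_prime_order (σ := y) h.prime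
      rw [h5] at hm
      have hsum := Equiv.Perm.sum_cycleType y
      rw [hm, Multiset.sum_replicate, smul_eq_mul] at hsum
      have hle : y.support.card ≤ p := by
        have := Finset.card_le_univ y.support
        rwa [ZMod.card] at this
      have hsg := Equiv.Perm.sign_of_cycleType y
      rw [h.even, hm, Multiset.sum_replicate, Multiset.card_replicate, smul_eq_mul] at hsg
      have hodd : Odd ((m + 1) * 2 + (m + 1)) := by
        rw [Nat.odd_iff]
        omega
      rw [hodd.neg_one_pow] at hsg
      exact absurd hsg (by decide)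
  have := card_centralizer_le y _ h.prime h3 rfl (by rw [ZMod.card]; exact h1)
  rwa [ZMod.card] at this

end Pool.Agent.K4H75.SG
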