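import Pool.Agent.K4H75.SG.Main

set_option autoImplicit false

/-! The two `p`-cycles are joined by a path. -/

namespace Pool.Agent.K4H75.SG

open Equiv

universe u v

set_option maxHeartbeats 400000

theorem solPair_of_commute {G : Type u} [Group G] {a b : G} (h : Commute a b) : SolPair a b := by
  unfold SolPair
  have : IsMulCommutative (Subgroup.closure ({a, b} : Set G)) := by
    apply Subgroup.isMulCommutative_closure
    rintro x (rfl | rfl) y (rfl | rfl)
    · rfl
    · exact h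
    · exact h.symm
    · rfl
  exact Group.isSolvable_of_comm (fun x y => this.is_comm.comm x y)

/-- steps between even nontrivial permutations -/
def Step {X : Type v} [Fintype X] [DecidableEq X] (a b : Perm X) : Prop :=
  (a ≠ 1 ∧ Perm.sign a = 1) ∧ (b ≠ 1 ∧ Perm.sign b = 1) ∧ SolPair a b

variable {X : Type v} [Fintype X] [DecidableEq X]

theorem Step.symm {a b : Perm X} (h : Step a b) : Step b a := ⟨h.2.1, h.1, solPair_symm h.2.2⟩

theorem Step.conj {a b : Perm X} (h : Step a b) (σ : Perm X) :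
    Step (σ * a * σ⁻¹) (σ * b * σ⁻¹) := by
  have hs : ∀ c : Perm X, Perm.sign c = 1 → Perm.sign (σ * c * σ⁻¹) = 1 := by
    intro c hc
    rw [Perm.sign_mul, Perm.sign_mul, hc, mul_one, Perm.sign_inv]
    exact Int.units_mul_self _
  have hn : ∀ c : Perm X, c ≠ 1 → σ * c * σ⁻¹ ≠ 1 := by
    intro c hc h
    apply hc
    rwa [conj_eq_one_iff] at h
  exact ⟨⟨hn _ h.1.1, hs _ h.1.2⟩, ⟨hn _ h.2.1.1, hs _ h.2.1.2⟩, solPair_conj σ h.2.2⟩

theorem exists_threeCycle (F : Finset X) (hF : F.card + 3 ≤ Fintype.card X) :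
    ∃ u : Perm X, u.IsThreeCycle ∧ ∀ s : Perm X, s.support ⊆ F → Commute s u := by
  have h1 : 2 < (Fᶜ).card := by
    rw [Finset.card_compl]
    omega
  obtain ⟨a, b, c, ha, hb, hc, hab, hac, hbc⟩ := Finset.two_lt_card_iff.mp h1
  refine ⟨swap a b * swap a c, Equiv.Perm.isThreeCycle_swap_mul_swap_same hab hac hbc, ?_⟩
  intro s hs
  apply Perm.Disjoint.commute
  intro x
  have hfix : ∀ y ∈ Fᶜ, s y = y := by
    intro y hy
    rw [← Perm.notMem_support]
    intro h
    exact (Finset.mem_compl.mp hy) (hs h)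
  by_cases h1 : x = a
  · exact Or.inl (h1 ▸ hfix a ha)
  by_cases h2 : x = b
  · exact Or.inl (h2 ▸ hfix b hb)
  by_cases h3 : x = c
  · exact Or.inl (h3 ▸ hfix c hc)
  right
  rw [Perm.mul_apply, swap_apply_of_ne_of_ne h1 h3, swap_apply_of_ne_of_ne h1 h2]

theorem step_threeCycle (s : Perm X) (hs1 : s ≠ 1) (hs2 : Perm.sign s = 1)
    (hF : s.support.card + 3 ≤ Fintype.card X) :
    ∃ u : Perm X, u.IsThreeCycle ∧ Step s u := by
  obtain ⟨u, hu, hc⟩ := exists_threeCycle s.support hF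
  exact ⟨u, hu, ⟨hs1, hs2⟩, ⟨hu.ne_one, hu.sign⟩, solPair_of_commute (hc s (Finset.Subset.refl _))⟩

theorem reach_threeCycles (hX : 9 ≤ Fintype.card X) (s t : Perm X) (hs : s.IsThreeCycle)
    (ht : t.IsThreeCycle) : Relation.ReflTransGen Step s t := by
  obtain ⟨u, hu, hc⟩ := exists_threeCycle (s.support ∪ t.support) (by
    have := Finset.card_union_le s.support t.support
    rw [hs.card_support, ht.card_support] at this
    omega)
  have h1 : Step s u := ⟨⟨hs.ne_one, hs.sign⟩, ⟨hu.ne_one, hu.sign⟩,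
    solPair_of_commute (hc s Finset.subset_union_left)⟩
  have h2 : Step t u := ⟨⟨ht.ne_one, ht.sign⟩, ⟨hu.ne_one, hu.sign⟩,
    solPair_of_commute (hc t Finset.subset_union_right)⟩
  exact (Relation.ReflTransGen.single h1).tail h2.symm

section affine

variable {p : ℕ}

theorem IsAff.mul {y z : Perm (ZMod p)} (hy : IsAff y) (hz : IsAff z) : IsAff (y * z) := by
  obtain ⟨a, b, h1⟩ := hy
  obtain ⟨c, d, h2⟩ := hz
  refine ⟨a * c, a * d + b, ?_⟩
  intro t
  rw [Perm.mul_apply, h2, h1]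
  ring

theorem IsAff.one : IsAff (1 : Perm (ZMod p)) := ⟨1, 0, fun t => by simp⟩

theorem IsAff.inv [Fact p.Prime] {y : Perm (ZMod p)} (hy : IsAff y) : IsAff y⁻¹ := by
  obtain ⟨a, b, h1⟩ := hy
  have ha : a ≠ 0 := by
    rintro rfl
    have h2 : y 0 = y 1 := by rw [h1, h1]; ring
    exact zero_ne_one (y.injective h2)
  refine ⟨a⁻¹, -a⁻¹ * b, ?_⟩
  intro t
  rw [Perm.inv_eq_iff_eq, h1]
  field_simp
  ring

/-- the affine group -/
def affGroup (p : ℕ) [Fact p.Prime] : Subgroup (Perm (ZMod p)) where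
  carrier := {y | IsAff y}
  mul_mem' := fun h1 h2 => h1.mul h2
  one_mem' := IsAff.one
  inv_mem' := fun h => h.inv

/-- the translations -/
def transGroup (p : ℕ) [Fact p.Prime] : Subgroup (affGroup p) where
  carrier := {y | ∃ c, ∀ t, (y : Perm (ZMod p)) t = t + c}
  mul_mem' := by
    rintro y z ⟨c, hc⟩ ⟨d, hd⟩
    refine ⟨d + c, fun t => ?_⟩
    rw [Subgroup.coe_mul, Perm.mul_apply, hd, hc, add_assoc]
  one_mem' := ⟨0, fun t => by simp⟩
  inv_mem' := by
    rintro y ⟨c, hc⟩
    refine ⟨-c, fun t => ?_⟩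
    rw [Subgroup.coe_inv, Perm.inv_eq_iff_eq, hc]
    ring

theorem commutator_le_trans (p : ℕ) [Fact p.Prime] :
    ⁅(⊤ : Subgroup (affGroup p)), ⊤⁆ ≤ transGroup p := by
  rw [Subgroup.commutator_le]
  rintro ⟨y, a, b, hy⟩ _ ⟨z, c, d, hz⟩ _
  refine ⟨a * d + b - b * c - d, ?_⟩
  intro t
  show (y * z * y⁻¹ * z⁻¹) t = _
  obtain ⟨s, rfl⟩ := z.surjective t
  obtain ⟨s', rfl⟩ := y.surjective s
  rw [Perm.mul_apply, Perm.mul_apply, Perm.mul_apply, pinv1, pinv1, hy, hz, hy, hz]
  ring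

theorem trans_comm (p : ℕ) [Fact p.Prime] (y z : affGroup p) (hy : y ∈ transGroup p)
    (hz : z ∈ transGroup p) : y * z = z * y := by
  obtain ⟨c, hc⟩ := hy
  obtain ⟨d, hd⟩ := hz
  apply Subtype.ext
  apply Equiv.ext
  intro t
  rw [Subgroup.coe_mul, Subgroup.coe_mul, Perm.mul_apply, Perm.mul_apply, hc, hd, hc, hd]
  exact add_right_comm _ _ _

theorem solvable_of_commutator_le {G : Type u} [Group G] (K : Subgroup G)
    (h1 : ⁅(⊤ : Subgroup G), ⊤⁆ ≤ K) (h2 : ∀ y ∈ K, ∀ z ∈ K, y * z = z * y) :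
    Group.IsSolvable G := by
  have h3 : derivedSeries G 2 = ⊥ := by
    rw [derivedSeries_succ, derivedSeries_succ, derivedSeries_zero, eq_bot_iff]
    refine (Subgroup.commutator_mono h1 h1).trans ?_
    rw [Subgroup.commutator_le]
    intro y hy z hz
    rw [Subgroup.mem_bot, commutatorElement_eq_one_iff_mul_comm]
    exact h2 y hy z hz
  exact ⟨⟨2, h3⟩⟩

theorem affGroup_solvable (p : ℕ) [Fact p.Prime] : Group.IsSolvable (affGroup p) :=
  solvable_of_commutator_le (transGroup p) (commutator_le_trans p)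
    (fun y hy z hz => trans_comm p y z hy hz)

theorem solPair_of_le {G : Type u} [Group G] (H : Subgroup G) (hH : Group.IsSolvable H) {y z : G}
    (hy : y ∈ H) (hz : z ∈ H) : SolPair y z := by
  have hle : Subgroup.closure ({y, z} : Set G) ≤ H := by
    rw [Subgroup.closure_le]
    rintro x (rfl | rfl)
    · exact hy
    · exact hz
  unfold SolPair
  exact Group.isSolvable_of_isSolvable_injective (Subgroup.inclusion_injective hle)

theorem solPair_of_aff [Fact p.Prime] {y z : Perm (ZMod p)} (hy : IsAff y) (hz : IsAff z) :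
    SolPair y z :=
  solPair_of_le (affGroup p) (affGroup_solvable p) hy hz

theorem tr_sign (hp : p.Prime) (hp2 : p ≠ 2) [NeZero p] : Perm.sign (tr p) = 1 := by
  have h1 : (tr p) ^ p = 1 := by
    ext t
    rw [tr_pow]
    simp
  have h2 : (Perm.sign (tr p)) ^ p = 1 := by rw [← map_pow, h1, map_one]
  have hodd : Odd p := hp.odd_of_ne_two hp2
  rcases Int.units_eq_one_or (Perm.sign (tr p)) with h | h
  · exact h
  · rw [h, hodd.neg_one_pow] at h2
    exact absurd h2 (by decide)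

theorem tr_ne_one [hpf : Fact p.Prime] : tr p ≠ 1 := by
  intro h
  have h1 : tr p 0 = 0 := by rw [h]; rfl
  rw [tr_apply, zero_add] at h1
  exact one_ne_zero h1

theorem reach_threeCycle [hpf : Fact p.Prime] (hp4 : p % 4 = 3) (hp : 9 ≤ p) :
    ∃ s : Perm (ZMod p), s.IsThreeCycle ∧ Relation.ReflTransGen Step (tr p) s := by
  have hpp := hpf.out
  have h2 : (2 : ZMod p) ≠ 0 := by
    intro h
    have h3 : ((2 : ℕ) : ZMod p) = 0 := by exact_mod_cast h
    rw [ZMod.natCast_eq_zero_iff] at h3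
    have := Nat.le_of_dvd (by norm_num) h3
    omega
  have h3 : (3 : ZMod p) ≠ 0 := by
    intro h
    have h3 : ((3 : ℕ) : ZMod p) = 0 := by exact_mod_cast h
    rw [ZMod.natCast_eq_zero_iff] at h3
    have := Nat.le_of_dvd (by norm_num) h3
    omega
  let y2 : Perm (ZMod p) := Units.mulLeft (Units.mk0 2 h2)
  have hy2 : ∀ t, y2 t = 2 * t := fun t => rfl
  let y : Perm (ZMod p) := y2 * y2
  have hy : ∀ t, y t = 4 * t := by
    intro t
    show y2 (y2 t) = 4 * t
    rw [hy2, hy2]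
    ring
  have hys : Perm.sign y = 1 := by
    show Perm.sign (y2 * y2) = 1
    rw [Perm.sign_mul]
    exact Int.units_mul_self _
  have hy1 : y ≠ 1 := by
    intro h
    have h4 : y 1 = 1 := by rw [h]; rfl
    rw [hy] at h4
    apply h3
    linear_combination h4
  have hyA : IsAff y := ⟨4, 0, fun t => by rw [hy, add_zero]⟩
  have hypow : ∀ (n : ℕ) (t : ZMod p), (y ^ n) t = 4 ^ n * t := by
    intro n
    induction n with
    | zero => intro t; simp
    | succ n ih =>
      intro t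
      rw [pow_succ', Perm.mul_apply, ih, hy]
      ring
  have hord : orderOf y ∣ (p - 1) / 2 := by
    apply orderOf_dvd_of_pow_eq_one
    ext t
    rw [hypow]
    have h5 : (4 : ZMod p) ^ ((p - 1) / 2) = 1 := by
      rw [show (4 : ZMod p) = 2 ^ 2 by norm_num, ← pow_mul,
        show 2 * ((p - 1) / 2) = p - 1 by omega]
      exact ZMod.pow_card_sub_one_eq_one h2
    rw [h5, one_mul, Perm.one_apply]
  obtain ⟨k, hk⟩ := exists_pow_prime y hy1
  set g := y ^ k with hg
  set r := orderOf g with hr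
  have hr1 : r ∣ (p - 1) / 2 := (orderOf_pow_dvd k).trans hord
  have hrle : r ≤ (p - 1) / 2 := Nat.le_of_dvd (by omega) hr1
  have hrodd : Odd r := by
    have h6 : Odd ((p - 1) / 2) := by
      rw [Nat.odd_iff]
      omega
    exact Odd.of_dvd_nat h6 hr1
  have hg1 : g ≠ 1 := by
    intro h
    rw [h, orderOf_one] at hr
    rw [hr] at hk
    exact Nat.not_prime_one hk
  have hgs : Perm.sign g = 1 := by rw [hg, map_pow, hys, one_pow]
  obtain ⟨c, hc⟩ : g.cycleFactorsFinset.Nonempty := by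
    rw [Finset.nonempty_iff_ne_empty]
    intro h
    exact hg1 (Equiv.Perm.cycleFactorsFinset_eq_empty_iff.mp h)
  have hcc : c.IsCycle := (Equiv.Perm.mem_cycleFactorsFinset_iff.mp hc).1
  have hcard : c.support.card = r := by
    obtain ⟨m, hm⟩ := Equiv.Perm.cycleType_prime_order (σ := g) hk
    have h7 : c.support.card ∈ g.cycleType := by
      rw [Equiv.Perm.cycleType_def, Multiset.mem_map]
      exact ⟨c, hc, rfl⟩
    rw [hm] at h7
    exact Multiset.eq_of_mem_replicate h7
  have hcs : Perm.sign c = 1 := by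
    rw [hcc.sign, hcard, hrodd.neg_one_pow, neg_neg]
  have hc1 : c ≠ 1 := hcc.ne_one
  obtain ⟨s, hs, hcs'⟩ := step_threeCycle c hc1 hcs (by
    rw [hcard, ZMod.card]
    omega)
  refine ⟨s, hs, ?_⟩
  have e1 : Step (tr p) y := ⟨⟨tr_ne_one, tr_sign hpp (by omega)⟩, ⟨hy1, hys⟩,
    solPair_of_aff ⟨1, 1, fun t => by rw [tr_apply, one_mul]⟩ hyA⟩
  have e2 : Step y g := ⟨⟨hy1, hys⟩, ⟨hg1, hgs⟩, solPair_of_commute ((Commute.refl y).pow_right k)⟩
  have e3 : Step g c := ⟨⟨hg1, hgs⟩, ⟨hc1, hcs⟩,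
    solPair_of_commute (Equiv.Perm.self_mem_cycle_factors_commute hc).symm⟩
  exact (((Relation.ReflTransGen.single e1).tail e2).tail e3).tail hcs'

theorem IsThreeCycle.conj' {s : Perm X} (hs : s.IsThreeCycle) (σ : Perm X) :
    (σ * s * σ⁻¹).IsThreeCycle := by
  unfold Perm.IsThreeCycle
  rw [Equiv.Perm.cycleType_conj]
  exact hs

theorem reach_symm {a b : Perm X} (h : Relation.ReflTransGen Step a b) :
    Relation.ReflTransGen Step b a := by
  induction h with
  | refl => exact Relation.ReflTransGen.refl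
  | tail _ hbc ih => exact Relation.ReflTransGen.head hbc.symm ih

theorem reach_conj' {a b : Perm X} (h : Relation.ReflTransGen Step a b) (σ : Perm X) :
    Relation.ReflTransGen Step (σ * a * σ⁻¹) (σ * b * σ⁻¹) := by
  induction h with
  | refl => exact Relation.ReflTransGen.refl
  | tail _ hbc ih => exact ih.tail (hbc.conj σ)

theorem reach_conj [hpf : Fact p.Prime] (hp4 : p % 4 = 3) (hp : 9 ≤ p) (σ : Perm (ZMod p)) :
    Relation.ReflTransGen Step (tr p) (σ * tr p * σ⁻¹) := by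
  obtain ⟨s, hs, h1⟩ := reach_threeCycle hp4 hp
  have h3 : Relation.ReflTransGen Step s (σ * s * σ⁻¹) :=
    reach_threeCycles (by rw [ZMod.card]; exact hp) s _ hs (IsThreeCycle.conj' hs σ)
  exact (h1.trans h3).trans (reach_symm (reach_conj' h1 σ))

end affine

end Pool.Agent.K4H75.SG
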